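import Pool.Agent.H510.EX.Tilt2

/-!
Dirichlet polynomials whose coefficients decrease along divisibility: the tail of zeta to the right of the critical line is small in the
mean with respect to their squares.
-/

set_option autoImplicit false

open Complex Filter Topology MeasureTheory Finset
open Pool.Agent.Q97.UM (dp N2 cv)

namespace Pool.Agent.H510.SM

noncomputable section

/-- coefficients decreasing along divisibility, supported on numbers without prime factors up to `B` -/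
structure DD (B N : ℕ) (r : ℕ → ℂ) (a : ℕ → ℝ) : Prop where
  eq : ∀ n, r n = (a n : ℂ)
  nn : ∀ n, 0 ≤ a n
  supp : ∀ n, a n ≠ 0 → 1 ≤ n ∧ n ≤ N
  low : ∀ n, a n ≠ 0 → ∀ p : ℕ, p.Prime → p ∣ n → B < p
  mono : ∀ d n, d ∣ n → n ≠ 0 → a n ≤ a d

/-- divisor sum -/
def sg (β : ℝ) (n : ℕ) : ℝ := ∑ d ∈ n.divisors, (d : ℝ) ^ (-β)

theorem sg_nonneg (β : ℝ) (n : ℕ) : 0 ≤ sg β n := by unfold sg; positivity

open Pointwise in
theorem sg_mul (β : ℝ) (m n : ℕ) : sg β (m * n) ≤ sg β m * sg β n := by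
  unfold sg
  rw [Nat.divisors_mul, Finset.mul_def]
  refine (Finset.sum_image_le_of_nonneg (fun u _ => by positivity)).trans (le_of_eq ?_)
  rw [Finset.sum_mul_sum, Finset.sum_product]
  refine Finset.sum_congr rfl fun x _ => Finset.sum_congr rfl fun y _ => ?_
  push_cast
  rw [Real.mul_rpow (Nat.cast_nonneg _) (Nat.cast_nonneg _)]

theorem anti_sum_le (X A B : ℕ) (F : ℕ × ℕ → ℝ) (hF0 : ∀ p, 0 ≤ F p)
    (hF : ∀ m ∈ Icc 1 X, ∀ p ∈ m.divisorsAntidiagonal, F p ≠ 0 → p.1 ≤ A ∧ p.2 ≤ B) :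
    ∑ m ∈ Icc 1 X, ∑ p ∈ m.divisorsAntidiagonal, F p ≤ ∑ x ∈ Icc 1 A, ∑ y ∈ Icc 1 B, F (x, y) := by
  classical
  rw [← Finset.sum_biUnion, ← Finset.sum_product, ← Finset.sum_filter_ne_zero]
  · refine Finset.sum_le_sum_of_subset_of_nonneg ?_ fun _ _ _ => hF0 _
    intro p hp
    rw [Finset.mem_filter, Finset.mem_biUnion] at hp
    obtain ⟨⟨m, hm, hpm⟩, hne⟩ := hp
    obtain ⟨h1, h2⟩ := hF m hm p hpm hne
    rw [Nat.mem_divisorsAntidiagonal] at hpm
    rw [Finset.mem_product, Finset.mem_Icc, Finset.mem_Icc]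
    have h3 : p.1 ≠ 0 := by
      intro h
      rw [h, zero_mul] at hpm
      exact hpm.2 hpm.1.symm
    have h4 : p.2 ≠ 0 := by
      intro h
      rw [h, mul_zero] at hpm
      exact hpm.2 hpm.1.symm
    exact ⟨⟨by omega, h1⟩, by omega, h2⟩
  · intro m _ m' _ hne
    rw [Function.onFun, Finset.disjoint_left]
    intro p hp hp'
    rw [Nat.mem_divisorsAntidiagonal] at hp hp'
    exact hne (hp.1.symm.trans hp'.1)

/-- the constant -/
def Sz (β : ℝ) : ℝ := ∑' n : ℕ, (n : ℝ) ^ (-(1 + β))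

theorem Sz_le (β : ℝ) (hβ : 0 < β) (X : ℕ) : ∑ n ∈ Icc 1 X, (n : ℝ) ^ (-(1 + β)) ≤ Sz β := by
  unfold Sz
  refine Summable.sum_le_tsum _ (fun n _ => by positivity) ?_
  rw [Real.summable_nat_rpow]
  linarith

theorem Sz_nonneg (β : ℝ) : 0 ≤ Sz β := tsum_nonneg fun n => by positivity

theorem sum_sg (β : ℝ) (hβ : 0 < β) (X : ℕ) : ∑ x ∈ Icc 1 X, sg β x * (x : ℝ) ^ (-(1 + β)) ≤ Sz β ^ 2 := by
  have h1 : ∀ x ∈ Icc 1 X, sg β x * (x : ℝ) ^ (-(1 + β)) ≤
      ∑ p ∈ x.divisorsAntidiagonal, (p.1 : ℝ) ^ (-(1 + β)) * (p.2 : ℝ) ^ (-(1 + β)) := by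
    intro x hx
    unfold sg
    rw [Finset.sum_mul, ← Nat.sum_divisorsAntidiagonal (fun d _ => (d : ℝ) ^ (-β) * (x : ℝ) ^ (-(1 + β)))]
    refine Finset.sum_le_sum fun p hp => ?_
    rw [Nat.mem_divisorsAntidiagonal] at hp
    have h2 : (1 : ℝ) ≤ p.1 := by
      have : p.1 ≠ 0 := by
        intro h
        rw [h, zero_mul] at hp
        exact hp.2 hp.1.symm
      exact_mod_cast Nat.one_le_iff_ne_zero.2 this
    rw [← hp.1]
    push_cast
    rw [Real.mul_rpow (Nat.cast_nonneg _) (Nat.cast_nonneg _), ← mul_assoc]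
    apply mul_le_mul_of_nonneg_right _ (by positivity)
    calc (p.1 : ℝ) ^ (-β) * (p.1 : ℝ) ^ (-(1 + β)) ≤ 1 * (p.1 : ℝ) ^ (-(1 + β)) := by
          apply mul_le_mul_of_nonneg_right _ (by positivity)
          exact Real.rpow_le_one_of_one_le_of_nonpos h2 (by linarith)
      _ = _ := one_mul _
  refine (Finset.sum_le_sum h1).trans ((anti_sum_le X X X _ (fun p => by positivity) ?_).trans ?_)
  · intro m hm p hp _
    rw [Finset.mem_Icc] at hm
    rw [Nat.mem_divisorsAntidiagonal] at hp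
    have h2 : p.1 ∣ m := ⟨p.2, hp.1.symm⟩
    have h3 : p.2 ∣ m := ⟨p.1, by rw [mul_comm]; exact hp.1.symm⟩
    exact ⟨(Nat.le_of_dvd (by omega) h2).trans hm.2, (Nat.le_of_dvd (by omega) h3).trans hm.2⟩
  · simp only
    rw [← Finset.sum_mul_sum, sq]
    have h2 := Sz_le β hβ X
    have h3 : 0 ≤ ∑ n ∈ Icc 1 X, (n : ℝ) ^ (-(1 + β)) := by positivity
    exact mul_le_mul h2 h2 h3 (Sz_nonneg β)

theorem sum_sg_a (β : ℝ) (hβ : 0 < β) {B N : ℕ} {r : ℕ → ℂ} {a : ℕ → ℝ} (h : DD B N r a) :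
    ∑ y ∈ Icc 1 N, sg β y * (a y ^ 2 / y) ≤ Sz β * N2 N r := by
  have h1 : ∀ y ∈ Icc 1 N, sg β y * (a y ^ 2 / y) ≤
      ∑ p ∈ y.divisorsAntidiagonal, (p.1 : ℝ) ^ (-(1 + β)) * (a p.2 ^ 2 / p.2) := by
    intro y hy
    unfold sg
    rw [Finset.sum_mul, ← Nat.sum_divisorsAntidiagonal (fun d _ => (d : ℝ) ^ (-β) * (a y ^ 2 / y))]
    refine Finset.sum_le_sum fun p hp => ?_
    rw [Nat.mem_divisorsAntidiagonal] at hp
    have h10 : p.1 ≠ 0 := by
      intro h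
      rw [h, zero_mul] at hp
      exact hp.2 hp.1.symm
    have h20 : p.2 ≠ 0 := by
      intro h
      rw [h, mul_zero] at hp
      exact hp.2 hp.1.symm
    have h11 : (0 : ℝ) < p.1 := by exact_mod_cast Nat.pos_of_ne_zero h10
    have h21 : (0 : ℝ) < p.2 := by exact_mod_cast Nat.pos_of_ne_zero h20
    have h3 : a y ≤ a p.2 := h.mono p.2 y ⟨p.1, by rw [mul_comm]; exact hp.1.symm⟩ hp.2
    have h4 : a y ^ 2 ≤ a p.2 ^ 2 := pow_le_pow_left₀ (h.nn y) h3 2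
    have h5 : (y : ℝ) = p.1 * p.2 := by rw [← hp.1]; push_cast; ring
    calc (p.1 : ℝ) ^ (-β) * (a y ^ 2 / y) ≤ (p.1 : ℝ) ^ (-β) * (a p.2 ^ 2 / y) := by
          apply mul_le_mul_of_nonneg_left _ (by positivity)
          exact div_le_div_of_nonneg_right h4 (Nat.cast_nonneg _)
      _ = (p.1 : ℝ) ^ (-(1 + β)) * (a p.2 ^ 2 / p.2) := by
          rw [h5, show -(1 + β) = -β - 1 by ring, Real.rpow_sub_one h11.ne']
          field_simp
  refine (Finset.sum_le_sum h1).trans ((anti_sum_le N N N _ (fun p => by positivity) ?_).trans ?_)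
  · intro m hm p hp _
    rw [Finset.mem_Icc] at hm
    rw [Nat.mem_divisorsAntidiagonal] at hp
    have h2 : p.1 ∣ m := ⟨p.2, hp.1.symm⟩
    have h3 : p.2 ∣ m := ⟨p.1, by rw [mul_comm]; exact hp.1.symm⟩
    exact ⟨(Nat.le_of_dvd (by omega) h2).trans hm.2, (Nat.le_of_dvd (by omega) h3).trans hm.2⟩
  · simp only
    rw [← Finset.sum_mul_sum]
    have h2 := Sz_le β hβ N
    have h3 : ∑ y ∈ Icc 1 N, a y ^ 2 / y = N2 N r := by
      unfold N2
      refine Finset.sum_congr rfl fun y _ => ?_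
      rw [h.eq, Complex.norm_real, Real.norm_eq_abs, sq_abs]
    rw [h3]
    exact mul_le_mul_of_nonneg_right h2 (Pool.Agent.Q97.UM.N2_nonneg _ _)

/-- the tail bound -/
theorem tail (β : ℝ) (hβ : 0 < β) {B N : ℕ} {r : ℕ → ℂ} {a : ℕ → ℝ} (h : DD B N r a) (N₀ Y : ℕ) (hN₀ : 1 ≤ N₀) (e : ℕ → ℂ)
    (he : ∀ n, ‖e n‖ ≤ if N₀ < n ∧ n ≤ Y then (n : ℝ) ^ (-(2 * β)) else 0) :
    N2 (Y * N) (cv e r) ≤ Sz β ^ 3 * (N₀ : ℝ) ^ (-(2 * β)) * N2 N r := by
  have hN₀' : (0 : ℝ) < N₀ := by exact_mod_cast hN₀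
  set w : ℕ → ℝ := fun n => if n ≤ Y then (n : ℝ) ^ (-β) else 0 with hw
  have hw0 : ∀ n, 0 ≤ w n := by
    intro n
    simp only [hw]
    split_ifs
    · positivity
    · exact le_rfl
  have hwle : ∀ n, w n ≤ (n : ℝ) ^ (-β) := by
    intro n
    simp only [hw]
    split_ifs
    · exact le_rfl
    · positivity
  have he2 : ∀ n, ‖e n‖ ≤ (N₀ : ℝ) ^ (-β) * w n := by
    intro n
    refine (he n).trans ?_
    split_ifs with h1
    · simp only [hw]
      rw [if_pos h1.2, show -(2 * β) = -β + -β by ring]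
      have h2 : (N₀ : ℝ) ≤ n := by exact_mod_cast h1.1.le
      have h3 : (0 : ℝ) < n := by linarith
      rw [Real.rpow_add h3]
      apply mul_le_mul_of_nonneg_right _ (by positivity)
      exact Real.rpow_le_rpow_of_nonpos hN₀' h2 (by linarith)
    · exact mul_nonneg (by positivity) (hw0 n)
  have h1 : ∀ m ∈ Icc 1 (Y * N), ‖cv e r m‖ ^ 2 / m ≤
      (N₀ : ℝ) ^ (-(2 * β)) * ∑ p ∈ m.divisorsAntidiagonal, (sg β p.1 * (w p.1 / p.1)) * (sg β p.2 * (a p.2 ^ 2 / p.2)) := by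
    intro m hm
    rw [Finset.mem_Icc] at hm
    have hm0 : (0 : ℝ) < m := by exact_mod_cast hm.1
    have e1 : ‖cv e r m‖ ≤ (N₀ : ℝ) ^ (-β) * ∑ p ∈ m.divisorsAntidiagonal, w p.1 * a p.2 := by
      unfold cv
      refine (norm_sum_le _ _).trans ?_
      rw [Finset.mul_sum]
      refine Finset.sum_le_sum fun p _ => ?_
      rw [norm_mul, h.eq, Complex.norm_real, Real.norm_eq_abs, abs_of_nonneg (h.nn _), ← mul_assoc]
      exact mul_le_mul_of_nonneg_right (he2 _) (h.nn _)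
    have e2 : (∑ p ∈ m.divisorsAntidiagonal, w p.1 * a p.2) ^ 2 ≤
        (∑ p ∈ m.divisorsAntidiagonal, w p.1) * ∑ p ∈ m.divisorsAntidiagonal, w p.1 * a p.2 ^ 2 := by
      have h2 := Finset.sum_mul_sq_le_sq_mul_sq m.divisorsAntidiagonal (fun p => Real.sqrt (w p.1)) (fun p => Real.sqrt (w p.1) * a p.2)
      have h3 : ∀ p : ℕ × ℕ, Real.sqrt (w p.1) * (Real.sqrt (w p.1) * a p.2) = w p.1 * a p.2 := by
        intro p
        rw [← mul_assoc, Real.mul_self_sqrt (hw0 _)]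
      have h4 : ∀ p : ℕ × ℕ, (Real.sqrt (w p.1) * a p.2) ^ 2 = w p.1 * a p.2 ^ 2 := by
        intro p
        rw [mul_pow, Real.sq_sqrt (hw0 _)]
      have h5 : ∀ p : ℕ × ℕ, Real.sqrt (w p.1) ^ 2 = w p.1 := fun p => Real.sq_sqrt (hw0 _)
      simp only [h3, h4, h5] at h2
      exact h2
    have e3 : ∑ p ∈ m.divisorsAntidiagonal, w p.1 ≤ sg β m := by
      unfold sg
      rw [← Nat.sum_divisorsAntidiagonal (fun d _ => (d : ℝ) ^ (-β))]
      exact Finset.sum_le_sum fun p _ => hwle _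
    have e4 : ‖cv e r m‖ ^ 2 ≤ (N₀ : ℝ) ^ (-(2 * β)) * (sg β m * ∑ p ∈ m.divisorsAntidiagonal, w p.1 * a p.2 ^ 2) := by
      have h2 : ‖cv e r m‖ ^ 2 ≤ ((N₀ : ℝ) ^ (-β) * ∑ p ∈ m.divisorsAntidiagonal, w p.1 * a p.2) ^ 2 :=
        pow_le_pow_left₀ (norm_nonneg _) e1 2
      refine h2.trans ?_
      rw [mul_pow]
      have h3 : ((N₀ : ℝ) ^ (-β)) ^ 2 = (N₀ : ℝ) ^ (-(2 * β)) := by
        rw [← Real.rpow_natCast, ← Real.rpow_mul hN₀'.le]
        congr 1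
        push_cast
        ring
      rw [h3]
      apply mul_le_mul_of_nonneg_left _ (by positivity)
      refine e2.trans ?_
      apply mul_le_mul_of_nonneg_right e3
      exact Finset.sum_nonneg fun p _ => mul_nonneg (hw0 _) (sq_nonneg _)
    rw [div_le_iff₀ hm0]
    refine e4.trans ?_
    rw [mul_assoc]
    apply mul_le_mul_of_nonneg_left _ (by positivity)
    rw [Finset.mul_sum, Finset.sum_mul]
    refine Finset.sum_le_sum fun p hp => ?_
    rw [Nat.mem_divisorsAntidiagonal] at hp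
    have h10 : p.1 ≠ 0 := by
      intro h
      rw [h, zero_mul] at hp
      exact hp.2 hp.1.symm
    have h20 : p.2 ≠ 0 := by
      intro h
      rw [h, mul_zero] at hp
      exact hp.2 hp.1.symm
    have h11 : (0 : ℝ) < p.1 := by exact_mod_cast Nat.pos_of_ne_zero h10
    have h21 : (0 : ℝ) < p.2 := by exact_mod_cast Nat.pos_of_ne_zero h20
    have h5 : (m : ℝ) = p.1 * p.2 := by rw [← hp.1]; push_cast; ring
    have h6 : sg β m ≤ sg β p.1 * sg β p.2 := by rw [← hp.1]; exact sg_mul β _ _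
    have h7 : 0 ≤ w p.1 * a p.2 ^ 2 := mul_nonneg (hw0 _) (sq_nonneg _)
    calc sg β m * (w p.1 * a p.2 ^ 2) ≤ (sg β p.1 * sg β p.2) * (w p.1 * a p.2 ^ 2) := mul_le_mul_of_nonneg_right h6 h7
      _ = sg β p.1 * (w p.1 / p.1) * (sg β p.2 * (a p.2 ^ 2 / p.2)) * m := by
          rw [h5]
          field_simp
  unfold N2
  refine (Finset.sum_le_sum h1).trans ?_
  rw [← Finset.mul_sum]
  have hF0 : ∀ p : ℕ × ℕ, 0 ≤ (sg β p.1 * (w p.1 / p.1)) * (sg β p.2 * (a p.2 ^ 2 / p.2)) := by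
    intro p
    have := sg_nonneg β p.1
    have := sg_nonneg β p.2
    have := hw0 p.1
    positivity
  have h2 := anti_sum_le (Y * N) Y N _ hF0 (by
    intro m _ p _ hne
    constructor
    · by_contra hcon
      apply hne
      simp only [hw]
      rw [if_neg hcon]
      simp
    · have h3 : a p.2 ≠ 0 := by
        intro h4
        apply hne
        rw [h4]
        simp
      exact (h.supp _ h3).2)
  simp only at h2
  rw [← Finset.sum_mul_sum] at h2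
  have h3 : ∑ x ∈ Icc 1 Y, sg β x * (w x / x) ≤ Sz β ^ 2 := by
    refine le_trans (Finset.sum_le_sum fun x hx => ?_) (sum_sg β hβ Y)
    rw [Finset.mem_Icc] at hx
    have hx0 : (0 : ℝ) < x := by exact_mod_cast hx.1
    apply mul_le_mul_of_nonneg_left _ (sg_nonneg β x)
    rw [show -(1 + β) = -β - 1 by ring, Real.rpow_sub_one hx0.ne']
    exact div_le_div_of_nonneg_right (hwle x) hx0.le
  have h4 := sum_sg_a β hβ h
  have h5 : 0 ≤ ∑ y ∈ Icc 1 N, sg β y * (a y ^ 2 / y) :=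
    Finset.sum_nonneg fun y _ => mul_nonneg (sg_nonneg _ _) (by positivity)
  have h6 : (∑ x ∈ Icc 1 Y, sg β x * (w x / x)) * (∑ y ∈ Icc 1 N, sg β y * (a y ^ 2 / y)) ≤ Sz β ^ 2 * (Sz β * N2 N r) :=
    mul_le_mul h3 h4 h5 (by positivity)
  calc (N₀ : ℝ) ^ (-(2 * β)) * ∑ m ∈ Icc 1 (Y * N), ∑ p ∈ m.divisorsAntidiagonal,
        (sg β p.1 * (w p.1 / p.1)) * (sg β p.2 * (a p.2 ^ 2 / p.2)) ≤ (N₀ : ℝ) ^ (-(2 * β)) * (Sz β ^ 2 * (Sz β * N2 N r)) := by
        apply mul_le_mul_of_nonneg_left _ (by positivity)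
        exact h2.trans h6
    _ = Sz β ^ 3 * (N₀ : ℝ) ^ (-(2 * β)) * ∑ n ∈ Icc 1 N, ‖r n‖ ^ 2 / n := by
        unfold N2
        ring

end

end Pool.Agent.H510.SM
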