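import Pool.Agent.H510.SM.Ta
import Pool.Agent.H510.EX.Inst
import Pool.Graph.R_pool_sql_team_seeded_3997aac3.Q97.UM.Rh

/-!
Functionals of the shape of zeta under measures with a density which is the square of a Dirichlet polynomial whose coefficients decrease
along divisibility: asymptotic independence.
-/

set_option autoImplicit false

open Complex Filter Topology MeasureTheory
open scoped ENNReal
open Pool.Agent.Q97.UM (dp N2 cv)

namespace Pool.Agent.H510.SM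

open Pool.Agent.H510.UZ Pool.Agent.H510.PC Pool.Agent.H510.EX

noncomputable section

theorem DD.anti {B B' N : ℕ} {r : ℕ → ℂ} {a : ℕ → ℝ} (h : DD B N r a) (hB : B' ≤ B) : DD B' N r a :=
  ⟨h.eq, h.nn, h.supp, fun n hn p hp hpn => lt_of_le_of_lt hB (h.low n hn p hp hpn), h.mono⟩

theorem DD.rsupp {B N : ℕ} {r : ℕ → ℂ} {a : ℕ → ℝ} (h : DD B N r a) (n : ℕ) (hn : r n ≠ 0) : 1 ≤ n ∧ n ≤ N := by
  apply h.supp
  intro h0
  apply hn
  rw [h.eq, h0]
  simp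

/-- coprime supports -/
theorem DD.prod {B N : ℕ} {r : ℕ → ℂ} {a : ℕ → ℝ} (h : DD B N r a) {M : ℕ} (hM : M ≤ B) (c : ℕ → ℂ)
    (hc : ∀ n, c n ≠ 0 → 1 ≤ n ∧ n ≤ M) : N2 (M * N) (cv c r) = N2 M c * N2 N r := by
  apply N2_prod c r M N hc h.rsupp
  intro x x' z z' hx hz hx' hz' he
  have hco : ∀ u v : ℕ, c u ≠ 0 → r v ≠ 0 → Nat.Coprime v u := by
    intro u v hu hv
    have h3 := hc u hu
    have hv' : a v ≠ 0 := by
      intro h0
      apply hv
      rw [h.eq, h0]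
      simp
    rw [Nat.coprime_iff_gcd_eq_one]
    by_contra h4
    obtain ⟨p, hp, hpd⟩ := Nat.exists_prime_and_dvd h4
    have h5 : p ∣ v := hpd.trans (Nat.gcd_dvd_left _ _)
    have h6 : p ∣ u := hpd.trans (Nat.gcd_dvd_right _ _)
    have h8 := h.low v hv' p hp h5
    have h9 := Nat.le_of_dvd (by omega) h6
    omega
  have h1 : z ∣ z' := by
    have : z ∣ x' * z' := ⟨x, by rw [← he, mul_comm]⟩
    exact (hco x' z hx' hz).dvd_of_dvd_mul_left this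
  have h2 : z' ∣ z := by
    have : z' ∣ x * z := ⟨x', by rw [he, mul_comm]⟩
    exact (hco x z' hx hz').dvd_of_dvd_mul_left this
  have h3 : z = z' := Nat.dvd_antisymm h1 h2
  refine ⟨?_, h3⟩
  rw [h3] at he
  exact Nat.eq_of_mul_eq_mul_right (h.rsupp z' hz').1 he

/-- the transfer -/
theorem tilt : ∀ K : Set ℂ, IsCompact K → (∀ z ∈ K, 1 / 2 < z.re ∧ z.re < 1) → ∀ D : ℝ, 0 ≤ D → ∀ ε : ℝ, 0 < ε →
    ∃ (B₀ : ℕ) (θ : ℝ), 0 < θ ∧ ∀ᶠ T : ℝ in atTop, ∀ Φ : (ℂ → ℂ) → ℝ, Fun K D Φ → ∀ (N : ℕ) (r : ℕ → ℂ) (a : ℕ → ℝ),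
      (N : ℝ) ≤ T ^ θ → DD B₀ N r a →
      |(∫ t in T..(2 * T), Φ (zv t) * ‖dp N r t‖ ^ 2) - (∫ t in T..(2 * T), Φ (zv t)) * N2 N r| ≤ ε * (T * N2 N r) := by
  intro K hK hKs D hD ε hε
  obtain ⟨θu, hθu, hup⟩ := SF_L.up
  obtain ⟨a, b, B, h1, h2, h3, hB, hKr⟩ := ZU.J_f.exists_rectV K hK (fun z hz => hKs z hz)
  obtain ⟨Cb, hCb, hbm⟩ := bad_mass a b B h1 h2 h3 hB
  obtain ⟨β, hβ⟩ : ∃ β : ℝ, 2 * β = a / 2 - 1 / 4 := ⟨(a / 2 - 1 / 4) / 2, by ring⟩
  have hβ0 : 0 < β := by linarith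
  obtain ⟨η, hη⟩ : ∃ η : ℝ, η = min (θu / 2) (1 / 2) := ⟨_, rfl⟩
  have hη0 : 0 < η := by rw [hη]; positivity
  have hη1 : η ≤ 1 / 2 := by rw [hη]; exact min_le_right _ _
  have hη2 : η ≤ θu / 2 := by rw [hη]; exact min_le_left _ _
  obtain ⟨c₁, hc₁, hfew⟩ := SF_L.few a b B h1 h2 h3 hB η hη0 hη1
  obtain ⟨θ, hθ⟩ : ∃ θ : ℝ, θ = min (c₁ / 2) (min (θu / 2) (1 / 80)) := ⟨_, rfl⟩
  have hθ0 : 0 < θ := by rw [hθ]; positivity
  have hθa : θ ≤ c₁ / 2 := by rw [hθ]; exact min_le_left _ _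
  have hθb : θ ≤ θu / 2 := by rw [hθ]; exact (min_le_right _ _).trans (min_le_left _ _)
  have hθc : θ ≤ 1 / 80 := by rw [hθ]; exact (min_le_right _ _).trans (min_le_right _ _)
  obtain ⟨μ, hμ⟩ : ∃ μ : ℝ, μ = min (1 / 64) (ε / 32) := ⟨_, rfl⟩
  have hμ0 : 0 < μ := by rw [hμ]; positivity
  have hμ1 : μ ≤ 1 / 64 := by rw [hμ]; exact min_le_left _ _
  have hμ2 : μ ≤ ε / 32 := by rw [hμ]; exact min_le_right _ _
  obtain ⟨δ, hδ⟩ : ∃ δ : ℝ, δ = μ / (D + 1) := ⟨_, rfl⟩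
  have hδ0 : 0 < δ := by rw [hδ]; positivity
  obtain ⟨κt, hκt⟩ : ∃ κt : ℝ, κt = δ ^ 2 / Cb * μ := ⟨_, rfl⟩
  have hκt0 : 0 < κt := by rw [hκt]; positivity
  have hκtC : Cb / δ ^ 2 * κt = μ := by rw [hκt]; field_simp
  obtain ⟨Na, hNa⟩ : ∃ Na : ℕ, ∀ n : ℕ, Na ≤ n → Sz β ^ 3 * (n : ℝ) ^ (-(2 * β)) ≤ κt := by
    have h4 : Tendsto (fun n : ℕ => Sz β ^ 3 * (n : ℝ) ^ (-(2 * β))) atTop (𝓝 0) := by
      have h5 := ((tendsto_rpow_neg_atTop (show 0 < 2 * β by positivity)).comp tendsto_natCast_atTop_atTop).const_mul (Sz β ^ 3)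
      simpa using h5
    exact eventually_atTop.1 (h4.eventually_le_const hκt0)
  obtain ⟨Nb, hNb⟩ := few_bad2 a b B h1 h2 h3 hB δ μ hδ0 hμ0
  set N₀ := max (max Na Nb) 1 with hN₀
  have hN₀a : Na ≤ N₀ := (le_max_left _ _).trans (le_max_left _ _)
  have hN₀b : Nb ≤ N₀ := (le_max_right _ _).trans (le_max_left _ _)
  have hN₀1 : 1 ≤ N₀ := le_max_right _ _
  have hbad := hNb N₀ hN₀b
  have hK0 : ∀ z ∈ K, 0 ≤ z.re := fun z hz => by linarith [(hKs z hz).1]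
  have hK1 : ∀ z ∈ K, z.re < 1 := fun z hz => (hKs z hz).2
  obtain ⟨𝓑, h𝓑⟩ := net2 N₀ (D * N₀) (by positivity) μ hμ0
  refine ⟨𝓑.sup (fun p => p.1), θ, hθ0, ?_⟩
  have hlen : ∀ᶠ T : ℝ in atTop, ∀ p ∈ 𝓑, ((p.1 : ℕ) : ℝ) ≤ T ^ (1 / 80 : ℝ) := by
    rw [Filter.eventually_all_finset]
    intro p _
    exact (tendsto_rpow_atTop (show (0 : ℝ) < 1 / 80 by norm_num)).eventually_ge_atTop ((p.1 : ℕ) : ℝ)
  have hNY : ∀ᶠ T : ℝ in atTop, N₀ ≤ ⌊T ^ η⌋₊ :=
    (tendsto_nat_floor_atTop.comp (tendsto_rpow_atTop hη0)).eventually_ge_atTop N₀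
  have hpw : ∀ᶠ T : ℝ in atTop, T ^ (-(c₁ / 2)) ≤ μ :=
    (tendsto_rpow_neg_atTop (show 0 < c₁ / 2 by positivity)).eventually_le_const (by positivity)
  filter_upwards [hbad, hlen, hNY, hpw, hup, hfew (δ / 2) (by positivity),
    Pool.Agent.Q97.UM.mv_rel μ hμ0, eventually_ge_atTop 16] with
    T hb1 hlen hNY hpw hup hfewT hMV hT Φ hΦ N r a' hN hr
  have hT0 : 0 < T := by linarith
  have hT1 : 1 ≤ T := by linarith
  set n2 := N2 N r with hn2
  have hn20 : 0 ≤ n2 := Pool.Agent.Q97.UM.N2_nonneg _ _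
  set Y := ⌊T ^ η⌋₊ with hY
  have hYle : (Y : ℝ) ≤ T ^ η := Nat.floor_le (by positivity)
  have hYN : ((Y * N : ℕ) : ℝ) ≤ T ^ θu := by
    push_cast
    calc (Y : ℝ) * N ≤ T ^ η * T ^ θ := mul_le_mul hYle hN (Nat.cast_nonneg _) (by positivity)
      _ = T ^ (η + θ) := (Real.rpow_add hT0 _ _).symm
      _ ≤ T ^ θu := Real.rpow_le_rpow_of_exponent_le hT1 (by linarith)
  -- the bad set
  obtain ⟨f, hfm, hfb, hfi⟩ := hbm N₀ Y N δ κt (2 * T) (T ^ (-c₁) * (2 * T)) r (nuL T) (SF_L.fin T) hδ0 (by positivity) hκt0.le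
    (by positivity) hNY hr.rsupp (by
      intro e he
      refine (tail β hβ0 hr N₀ Y hN₀1 e (by rw [hβ]; exact he)).trans ?_
      exact mul_le_mul_of_nonneg_right (hNa N₀ hN₀a) hn20) (fun b => hup (Y * N) hYN b) hfewT
  have hfi2 : ∫⁻ t, f t * ENNReal.ofReal (‖dp N r t‖ ^ 2) ∂(nuL T) ≤ ENNReal.ofReal (4 * μ * (T * n2)) := by
    refine hfi.trans ?_
    rw [← ENNReal.ofReal_add (by positivity) (by positivity)]
    apply ENNReal.ofReal_le_ofReal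
    rw [hκtC]
    have h4 : T ^ (-c₁) * (2 * T) * (N * n2) ≤ 2 * μ * (T * n2) := by
      have h5 : T ^ (-c₁) * N ≤ μ := by
        calc T ^ (-c₁) * N ≤ T ^ (-c₁) * T ^ (c₁ / 2) := by
              gcongr
              exact hN.trans (Real.rpow_le_rpow_of_exponent_le hT1 hθa)
          _ = T ^ (-(c₁ / 2)) := by rw [← Real.rpow_add hT0]; congr 1; ring
          _ ≤ _ := hpw
      calc T ^ (-c₁) * (2 * T) * (N * n2) = (T ^ (-c₁) * N) * (2 * (T * n2)) := by ring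
        _ ≤ μ * (2 * (T * n2)) := by gcongr
        _ = _ := by ring
    linarith
  -- the functional on the torus
  have hgc := FTf_cont hK0 hD hΦ N₀
  set g : BoundedContinuousFunction (Tor N₀) ℝ := BoundedContinuousFunction.mkOfCompact ⟨FTf N₀ Φ, hgc⟩ with hg
  have hgl : g ∈ Lip N₀ (D * N₀) := ⟨fun x y => FTf_lip hK0 hΦ N₀ x y, fun x => ⟨hΦ.nonneg _, hΦ.le_one _⟩⟩
  obtain ⟨⟨M, c₀⟩, hp, hclose⟩ := h𝓑 g hgl
  have hM1 := hlen _ hp
  have hMB : M ≤ 𝓑.sup (fun p => p.1) := Finset.le_sup (f := fun p : ℕ × (ℕ → ℂ) => p.1) hp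
  simp only at hM1 hclose
  have hgv : ∀ θ, g θ = FTf N₀ Φ θ := fun θ => rfl
  simp only [hgv] at hclose
  obtain ⟨cc, hcs, hcd, hcN⟩ := dp_restrict M c₀
  have hF0 : ∀ θ, 0 ≤ FTf N₀ Φ θ := fun θ => hΦ.nonneg _
  have hF1 : ∀ θ, FTf N₀ Φ θ ≤ 1 := fun θ => hΦ.le_one _
  have hsq : ∀ t : ℝ, |FTf N₀ Φ (ph N₀ t) - ‖dp M cc t‖ ^ 2| ≤ 3 * μ := by
    intro t
    have h5 := sq_close hμ0.le (by linarith) (Real.sqrt_nonneg (FTf N₀ Φ (ph N₀ t)))
      (Real.sqrt_le_one.2 (hF1 _)) (norm_nonneg (dp M c₀ t)) (hclose t)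
    rwa [Real.sq_sqrt (hF0 _), ← hcd t] at h5
  have hnb : ∀ t : ℝ, ¬ Bad a b B δ N₀ t → |Φ (zv t) - FTf N₀ Φ (ph N₀ t)| ≤ μ := by
    intro t ht
    have h5 : |Φ (zv t) - FTf N₀ Φ (ph N₀ t)| ≤ D * δ := by
      apply hΦ.lip _ _ _ hδ0.le
      intro z hz
      unfold Bad at ht
      push Not at ht
      have h6 := ht z (hKr hz)
      unfold E at h6
      rw [FT_ph]
      exact h6.le
    refine h5.trans ?_
    rw [hδ, mul_div_assoc', div_le_iff₀ (by positivity)]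
    nlinarith
  have hb : ∀ t : ℝ, |Φ (zv t) - FTf N₀ Φ (ph N₀ t)| ≤ 1 := by
    intro t
    rw [abs_le]
    constructor <;> linarith [hΦ.nonneg (zv t), hΦ.le_one (zv t), hF0 (ph N₀ t), hF1 (ph N₀ t)]
  have hc3 : Continuous fun t : ℝ => Φ (zv t) := val_cont hK hK1 hD hΦ
  -- the mean of the square of the short polynomial
  set X := T * N2 M cc with hX
  have hX0 : 0 ≤ X := by rw [hX]; exact mul_nonneg hT0.le (Pool.Agent.Q97.UM.N2_nonneg _ _)
  set J := ∫ t in T..(2 * T), ‖dp M cc t‖ ^ 2 with hJ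
  set K₁ := ∫ t in T..(2 * T), FTf N₀ Φ (ph N₀ t) with hK₁
  set K₂ := ∫ t in T..(2 * T), Φ (zv t) with hK₂
  have hM40 : (M : ℝ) ≤ T ^ (1 / 40 : ℝ) := hM1.trans (Real.rpow_le_rpow_of_exponent_le hT1 (by norm_num))
  have a4 := hMV M hM40 cc
  have hi1 : IntervalIntegrable (fun t => ‖dp M cc t‖ ^ 2) volume T (2 * T) :=
    ((dp_cont M cc).norm.pow 2).intervalIntegrable _ _
  have hc2 : Continuous fun t : ℝ => FTf N₀ Φ (ph N₀ t) := hgc.comp (ph_cont N₀)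
  have hi2 : IntervalIntegrable (fun t : ℝ => FTf N₀ Φ (ph N₀ t)) volume T (2 * T) := hc2.intervalIntegrable _ _
  have hi3 : IntervalIntegrable (fun t : ℝ => Φ (zv t)) volume T (2 * T) := hc3.intervalIntegrable _ _
  have g1 : |J - K₁| ≤ 3 * μ * T := by
    rw [hJ, hK₁, ← intervalIntegral.integral_sub hi1 hi2]
    have h1 := intervalIntegral.norm_integral_le_of_norm_le_const (a := T) (b := 2 * T) (C := 3 * μ)
      (f := fun t => ‖dp M cc t‖ ^ 2 - FTf N₀ Φ (ph N₀ t)) (by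
        intro t _
        rw [Real.norm_eq_abs, abs_sub_comm]
        exact hsq t)
    rw [Real.norm_eq_abs] at h1
    refine h1.trans (le_of_eq ?_)
    rw [show 2 * T - T = T by ring, abs_of_pos hT0]
  have g2 : |K₂ - K₁| ≤ 2 * μ * T := by
    rw [hK₂, hK₁, ← intervalIntegral.integral_sub hi3 hi2]
    have h5 : |∫ t in T..(2 * T), (Φ (zv t) - FTf N₀ Φ (ph N₀ t))| ≤ ∫ t in T..(2 * T), |Φ (zv t) - FTf N₀ Φ (ph N₀ t)| :=
      intervalIntegral.abs_integral_le_integral_abs (by linarith)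
    refine h5.trans ?_
    have h6 := int_le (fun t => |Φ (zv t) - FTf N₀ Φ (ph N₀ t)|) ((hc3.sub hc2).abs) hb μ hμ0.le T hT0.le
    refine h6.trans ?_
    have h7 : V T (fun t => μ < |Φ (zv t) - FTf N₀ Φ (ph N₀ t)|) ≤ μ * T := by
      have h8 := ENNReal.toReal_mono ENNReal.ofReal_ne_top hb1
      rw [ENNReal.toReal_ofReal (by positivity)] at h8
      refine le_trans ?_ h8
      apply ENNReal.toReal_mono (V_fin T (Bad a b B δ N₀))
      apply measure_mono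
      rintro t ⟨ht, h9⟩
      refine ⟨ht, ?_⟩
      by_contra hcon
      exact absurd (hnb t hcon) (not_le.2 h9)
    linarith
  rw [abs_le] at g1 g2 a4
  have g3 : K₂ ≤ T := by
    have h5 : K₂ ≤ ∫ t in T..(2 * T), (1 : ℝ) :=
      intervalIntegral.integral_mono (by linarith) hi3 (by simp) (fun t => hΦ.le_one _)
    simp only [intervalIntegral.integral_const, smul_eq_mul, mul_one] at h5
    linarith
  have hμT : μ * T ≤ 1 / 64 * T := by gcongr
  have hμX : μ * X ≤ 1 / 64 * X := mul_le_mul_of_nonneg_right hμ1 hX0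
  have hX1 : X ≤ 4 * T := by linarith [a4.1, g1.2, g2.1]
  have hμX4 : μ * X ≤ 4 * (μ * T) := by
    have := mul_le_mul_of_nonneg_left hX1 hμ0.le
    linarith
  have g4 : |X - K₂| ≤ 9 * μ * T := by
    rw [abs_le]
    constructor <;> linarith [a4.1, a4.2, g1.1, g1.2, g2.1, g2.2]
  -- the product
  have hprod := hr.prod hMB cc hcs
  have hMN : ((M * N : ℕ) : ℝ) ≤ T ^ (1 / 40 : ℝ) := by
    push_cast
    calc (M : ℝ) * N ≤ T ^ (1 / 80 : ℝ) * T ^ (1 / 80 : ℝ) := by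
          apply mul_le_mul hM1 _ (Nat.cast_nonneg _) (by positivity)
          exact hN.trans (Real.rpow_le_rpow_of_exponent_le hT1 hθc)
      _ = T ^ (1 / 40 : ℝ) := by rw [← Real.rpow_add hT0]; congr 1; ring
  have hpr := hMV (M * N) hMN (cv cc r)
  have hdp : ∀ t, ‖dp (M * N) (cv cc r) t‖ ^ 2 = ‖dp M cc t‖ ^ 2 * ‖dp N r t‖ ^ 2 := by
    intro t
    rw [← Pool.Agent.Q84.UM.t_DPM.1 M N cc r t (by
      intro n hn
      by_contra hcon
      have := (hcs n hcon).2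
      omega) (by
      intro n hn
      by_contra hcon
      have := (hr.rsupp n hcon).2
      omega), norm_mul, mul_pow]
  simp only [hdp] at hpr
  rw [hprod] at hpr
  have hl2 := hup N (hN.trans (Real.rpow_le_rpow_of_exponent_le hT1 (by linarith))) r
  set F : ℝ → ℝ≥0∞ := fun t => ENNReal.ofReal (‖dp N r t‖ ^ 2) with hF
  have hFc : Continuous fun t => ‖dp N r t‖ ^ 2 := (dp_cont N r).norm.pow 2
  have hFm : Measurable F := (ENNReal.continuous_ofReal.comp hFc).measurable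
  set h : ℝ → ℝ := fun t => |Φ (zv t) - ‖dp M cc t‖ ^ 2| * ‖dp N r t‖ ^ 2 with hh
  have hhc : Continuous h := ((hc3.sub ((dp_cont M cc).norm.pow 2)).abs).mul hFc
  have hpt : ∀ t, ENNReal.ofReal (h t) ≤ ENNReal.ofReal (4 * μ) * F t + 2 * (f t * F t) := by
    intro t
    simp only [hh]
    rw [ENNReal.ofReal_mul (abs_nonneg _), ← mul_assoc, ← add_mul]
    apply mul_le_mul_left
    by_cases hbd : Bad a b B δ N₀ t
    · have h5 := hfb t hbd
      have h6 : |Φ (zv t) - ‖dp M cc t‖ ^ 2| ≤ 2 := by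
        have h7 := abs_le.1 (hsq t)
        have h8 := abs_le.1 (hb t)
        have h9 := hΦ.nonneg (zv t)
        have h10 := hΦ.le_one (zv t)
        have h11 := hF0 (ph N₀ t)
        have h12 := hF1 (ph N₀ t)
        rw [abs_le]
        constructor <;> nlinarith [h7.1, h7.2, sq_nonneg ‖dp M cc t‖]
      calc ENNReal.ofReal |Φ (zv t) - ‖dp M cc t‖ ^ 2| ≤ ENNReal.ofReal 2 := ENNReal.ofReal_le_ofReal h6
        _ = 2 * 1 := by rw [mul_one]; norm_num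
        _ ≤ 2 * f t := by gcongr
        _ ≤ _ := le_add_self
    · have h5 := abs_le.1 (hnb t hbd)
      have h6 := abs_le.1 (hsq t)
      have h7 : |Φ (zv t) - ‖dp M cc t‖ ^ 2| ≤ 4 * μ := by
        rw [abs_le]
        constructor <;> linarith [h5.1, h6.1, h5.2, h6.2]
      exact (ENNReal.ofReal_le_ofReal h7).trans le_self_add
  have hint : ∫⁻ t, ENNReal.ofReal (h t) ∂(nuL T) ≤ ENNReal.ofReal (16 * μ * (T * n2)) := by
    calc ∫⁻ t, ENNReal.ofReal (h t) ∂(nuL T) ≤ ∫⁻ t, (ENNReal.ofReal (4 * μ) * F t + 2 * (f t * F t)) ∂(nuL T) := lintegral_mono hpt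
      _ = ENNReal.ofReal (4 * μ) * ∫⁻ t, F t ∂(nuL T) + 2 * ∫⁻ t, f t * F t ∂(nuL T) := by
          have m2 : Measurable fun t => ENNReal.ofReal (4 * μ) * F t := hFm.const_mul _
          have m3 : Measurable fun t => f t * F t := hfm.mul hFm
          rw [lintegral_add_left m2, lintegral_const_mul _ hFm, lintegral_const_mul _ m3]
      _ ≤ ENNReal.ofReal (4 * μ) * ENNReal.ofReal (2 * T * n2) + 2 * ENNReal.ofReal (4 * μ * (T * n2)) := by
          gcongr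
      _ = ENNReal.ofReal (16 * μ * (T * n2)) := by
          rw [← ENNReal.ofReal_mul (by positivity), show (2 : ℝ≥0∞) = ENNReal.ofReal 2 by norm_num,
            ← ENNReal.ofReal_mul (by norm_num), ← ENNReal.ofReal_add (by positivity) (by positivity)]
          congr 1
          ring
  rw [lint_L h hhc (fun t => by positivity) hT0.le] at hint
  have e1 : ∫ t in T..(2 * T), h t ≤ 16 * μ * (T * n2) := (ENNReal.ofReal_le_ofReal_iff (by positivity)).1 hint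
  have hi4 : IntervalIntegrable (fun t => Φ (zv t) * ‖dp N r t‖ ^ 2) volume T (2 * T) := (hc3.mul hFc).intervalIntegrable _ _
  have hi5 : IntervalIntegrable (fun t => ‖dp M cc t‖ ^ 2 * ‖dp N r t‖ ^ 2) volume T (2 * T) :=
    (((dp_cont M cc).norm.pow 2).mul hFc).intervalIntegrable _ _
  have e2 : |(∫ t in T..(2 * T), Φ (zv t) * ‖dp N r t‖ ^ 2) - ∫ t in T..(2 * T), ‖dp M cc t‖ ^ 2 * ‖dp N r t‖ ^ 2| ≤
      16 * μ * (T * n2) := by
    rw [← intervalIntegral.integral_sub hi4 hi5]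
    refine (intervalIntegral.abs_integral_le_integral_abs (by linarith)).trans ?_
    refine le_trans (le_of_eq ?_) e1
    refine intervalIntegral.integral_congr fun t _ => ?_
    simp only [hh]
    rw [← sub_mul, abs_mul, abs_of_nonneg (by positivity : (0 : ℝ) ≤ ‖dp N r t‖ ^ 2)]
  have e3 : |(∫ t in T..(2 * T), ‖dp M cc t‖ ^ 2 * ‖dp N r t‖ ^ 2) - X * n2| ≤ 4 * μ * (T * n2) := by
    have h4 : X * n2 = T * (N2 M cc * n2) := by rw [hX]; ring
    rw [h4]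
    refine hpr.trans ?_
    calc μ * (T * (N2 M cc * n2)) = (μ * X) * n2 := by rw [hX]; ring
      _ ≤ (4 * (μ * T)) * n2 := by gcongr
      _ = _ := by ring
  have e4 : |X * n2 - K₂ * n2| ≤ 9 * μ * (T * n2) := by
    rw [← sub_mul, abs_mul, abs_of_nonneg hn20]
    calc |X - K₂| * n2 ≤ (9 * μ * T) * n2 := by gcongr
      _ = _ := by ring
  have e5 : 29 * μ * (T * n2) ≤ ε * (T * n2) := by
    apply mul_le_mul_of_nonneg_right _ (by positivity)
    linarith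
  rw [abs_le] at e2 e3 e4 ⊢
  constructor <;> linarith [e2.1, e2.2, e3.1, e3.2, e4.1, e4.2]

end

end Pool.Agent.H510.SM
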