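import Pool.Graph.R_pool_sql_team_seeded_3997aac3.Q276.KZ.All

/-!
The density `|ζ(1/2 + it)|^(2k)`, `k` small, and the square of a Dirichlet polynomial are close in the mean.
-/

set_option autoImplicit false

namespace Pool.Agent.H510.SM

open MeasureTheory Filter Finset
open Pool.Agent.Q276.CD Pool.Agent.Q276.KZ

theorem QX_empty (z : ℝ) (K : ℕ → ℕ) : QX z K ∅ = QE z K := by
  funext j m
  simp [QX]

theorem int_comb (Y P g : ℝ → ℝ) (hY : Continuous Y) (hP : Continuous P) (hg : Continuous g) (a b s t : ℝ) :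
    ∫ x in s..t, (a * Y x + b * P x - g x + Y x) =
      a * (∫ x in s..t, Y x) + b * (∫ x in s..t, P x) - (∫ x in s..t, g x) + ∫ x in s..t, Y x := by
  have i1 : IntervalIntegrable (fun x => a * Y x) volume s t := (hY.const_mul a).intervalIntegrable _ _
  have i2 : IntervalIntegrable (fun x => b * P x) volume s t := (hP.const_mul b).intervalIntegrable _ _
  have i3 : IntervalIntegrable g volume s t := hg.intervalIntegrable _ _
  have i4 : IntervalIntegrable Y volume s t := hY.intervalIntegrable _ _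
  have i5 : IntervalIntegrable (fun x => a * Y x + b * P x) volume s t := i1.add i2
  have i6 : IntervalIntegrable (fun x => a * Y x + b * P x - g x) volume s t := i5.sub i3
  rw [intervalIntegral.integral_add i6 i4, intervalIntegral.integral_sub i5 i3, intervalIntegral.integral_add i1 i2,
    intervalIntegral.integral_const_mul, intervalIntegral.integral_const_mul]

/-- the mean square of the polynomial, from below -/
theorem low_mass : ∃ e0 : ℝ, 0 < e0 ∧ ∀ e : ℝ, 0 < e → e ≤ e0 → ∀ C3 : ℝ, 1 ≤ C3 → ∃ C : ℝ, 0 < C ∧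
    ∀ᶠ T : ℝ in atTop, ∀ (k : ℝ) (J : ℕ) (K b : ℕ → ℕ), Su e C3 T k J K b →
    T * WW k J b - C * (k * Real.log (2 / k)) * (T * WW k J b) ≤ ∫ t in T..(2 * T), ‖Dr (fQ b J (QE k K)) (y2 T) (cl t)‖ ^ 2 := by
  obtain ⟨e0, he0, hLA⟩ := g_LA
  refine ⟨e0, he0, fun e he hee C3 hC3 => ?_⟩
  obtain ⟨C, hC, hLA⟩ := hLA 1 le_rfl e he hee C3 hC3
  refine ⟨C + 16, by positivity, ?_⟩
  have v1 : ∀ᶠ T : ℝ in atTop, T ^ ((3:ℝ) / 20) * Real.log T ^ ((1:ℝ) / 5) ≤ T := by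
    have h1 : ∀ᶠ T : ℝ in atTop, Real.log T ≤ T := by
      filter_upwards [eventually_gt_atTop 0] with T hT
      exact (Real.log_le_sub_one_of_pos hT).trans (by linarith)
    filter_upwards [h1, eventually_ge_atTop 1] with T h1 hT
    have hT0 : 0 < T := by linarith
    have h2 : Real.log T ^ ((1:ℝ) / 5) ≤ T ^ ((1:ℝ) / 5) := Real.rpow_le_rpow (Real.log_nonneg hT) h1 (by norm_num)
    calc T ^ ((3:ℝ) / 20) * Real.log T ^ ((1:ℝ) / 5) ≤ T ^ ((3:ℝ) / 20) * T ^ ((1:ℝ) / 5) := by gcongr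
      _ = T ^ ((7:ℝ) / 20) := by rw [← Real.rpow_add hT0]; norm_num
      _ ≤ T ^ (1:ℝ) := Real.rpow_le_rpow_of_exponent_le hT (by norm_num)
      _ = T := Real.rpow_one T
  filter_upwards [hLA, v1, dl_small (C5 := 1) le_rfl hC3, eventually_ge_atTop (Real.exp 1), eventually_ge_atTop (3:ℝ)] with
    T hLA v1 hdl hTe hT3 k J K b hS
  have hT0 : 0 < T := by linarith
  have hk0 := hS.k0
  have hk1 := hS.k1
  obtain ⟨hd0, hd1⟩ := hdl e k J K b hS he
  set Δ := dl 1 T k (K J) with hΔ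
  have h1 := hLA k J K b hS
  set f := fQ b J (QE k K) with hf
  set Y := y2 T with hY
  have hfa : ∀ n, |f n| ≤ 1 := fun n => (Pool.Agent.Q65.KZ.t_FA b J K k (abs_le.2 ⟨by linarith, hk1⟩) n).2.2.1
  -- the shifted polynomial
  have hsh : ∀ t : ℝ, Dr f Y (cl t + (Δ : ℂ)) = Dp (fun n => ((f n : ℝ) : ℂ) * (n : ℂ) ^ (-(Δ : ℂ))) Y (cl t) := by
    intro t
    unfold Dr Dp
    refine Finset.sum_congr rfl fun n hn => ?_
    rw [mem_Icc] at hn
    have hn0 : (n : ℂ) ≠ 0 := by exact_mod_cast (by omega : n ≠ 0)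
    rw [mul_assoc, ← Complex.cpow_add _ _ hn0]
    congr 2
    ring
  have hna : ∀ n ∈ Icc 1 Y, ‖((f n : ℝ) : ℂ) * (n : ℂ) ^ (-(Δ : ℂ))‖ ≤ ‖((f n : ℝ) : ℂ)‖ := by
    intro n hn
    rw [mem_Icc] at hn
    rw [norm_mul]
    have hn0 : (0:ℝ) < n := by exact_mod_cast hn.1
    have h2 : ‖(n : ℂ) ^ (-(Δ : ℂ))‖ ≤ 1 := by
      rw [← Complex.ofReal_natCast, Complex.norm_cpow_eq_rpow_re_of_pos hn0]
      simp only [Complex.neg_re, Complex.ofReal_re]
      exact Real.rpow_le_one_of_one_le_of_nonpos (by exact_mod_cast hn.1) (by linarith)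
    calc _ ≤ ‖((f n : ℝ) : ℂ)‖ * 1 := by gcongr
      _ = _ := mul_one _
  have hn1 : ∀ n, ‖((f n : ℝ) : ℂ)‖ ≤ 1 := by
    intro n
    rw [Complex.norm_real, Real.norm_eq_abs]
    exact hfa n
  have hYle : (Y : ℝ) ≤ T ^ ((1:ℝ) / 20) := Nat.floor_le (by positivity)
  have herr : ∀ a : ℕ → ℂ, (∀ n ∈ Icc 1 Y, ‖a n‖ ≤ 1) → 4 * (Y : ℝ) * (∑ n ∈ Icc 1 Y, ‖a n‖) ^ 2 ≤ 4 * T ^ ((3:ℝ) / 20) := by
    intro a ha
    have h2 : ∑ n ∈ Icc 1 Y, ‖a n‖ ≤ Y := by
      calc ∑ n ∈ Icc 1 Y, ‖a n‖ ≤ ∑ n ∈ Icc 1 Y, (1 : ℝ) := Finset.sum_le_sum ha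
        _ = Y := by simp
    have h3 : 0 ≤ ∑ n ∈ Icc 1 Y, ‖a n‖ := by positivity
    calc 4 * (Y : ℝ) * (∑ n ∈ Icc 1 Y, ‖a n‖) ^ 2 ≤ 4 * (Y : ℝ) * (Y : ℝ) ^ 2 := by gcongr
      _ = 4 * (Y : ℝ) ^ 3 := by ring
      _ ≤ 4 * (T ^ ((1:ℝ) / 20)) ^ 3 := by gcongr
      _ = 4 * T ^ ((3:ℝ) / 20) := by
          rw [← Real.rpow_natCast, ← Real.rpow_mul hT0.le]; norm_num
  have m1 := g_MVC (fun n => ((f n : ℝ) : ℂ) * (n : ℂ) ^ (-(Δ : ℂ))) Y T (2 * T) (by linarith)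
  have m2 := g_MVC (fun n => ((f n : ℝ) : ℂ)) Y T (2 * T) (by linarith)
  have r1 := herr (fun n => ((f n : ℝ) : ℂ) * (n : ℂ) ^ (-(Δ : ℂ))) (fun n hn => (hna n hn).trans (hn1 n))
  have r2 := herr (fun n => ((f n : ℝ) : ℂ)) (fun n _ => hn1 n)
  have h3 : ∑ n ∈ Icc 1 Y, ‖((f n : ℝ) : ℂ) * (n : ℂ) ^ (-(Δ : ℂ))‖ ^ 2 / (n:ℝ) ≤ ∑ n ∈ Icc 1 Y, ‖((f n : ℝ) : ℂ)‖ ^ 2 / (n:ℝ) := by
    refine Finset.sum_le_sum fun n hn => ?_
    apply div_le_div_of_nonneg_right _ (Nat.cast_nonneg _)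
    exact pow_le_pow_left₀ (norm_nonneg _) (hna n hn) 2
  have h4 : ∫ t in (T + T ^ ((7:ℝ) / 8))..(2 * T - T ^ ((7:ℝ) / 8)), ‖Dr f Y (cl t + (Δ : ℂ))‖ ^ 2 ≤
      ∫ t in T..(2 * T), ‖Dp (fun n => ((f n : ℝ) : ℂ) * (n : ℂ) ^ (-(Δ : ℂ))) Y (cl t)‖ ^ 2 := by
    simp only [hsh]
    have hc : Continuous fun t : ℝ => ‖Dp (fun n => ((f n : ℝ) : ℂ) * (n : ℂ) ^ (-(Δ : ℂ))) Y (cl t)‖ ^ 2 := by
      have this : Continuous fun t : ℝ => ‖Dr f Y (cl t + (Δ : ℂ))‖ ^ 2 := (Pool.Agent.Q276.KZ.Dr_cont' f Y (Δ : ℂ)).norm.pow 2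
      simpa only [hsh] using this
    have hp : 0 ≤ T ^ ((7:ℝ) / 8) := by positivity
    rcases le_total (T + T ^ ((7:ℝ) / 8)) (2 * T - T ^ ((7:ℝ) / 8)) with h | h
    · exact intervalIntegral.integral_mono_interval (by linarith) h (by linarith)
        (Filter.Eventually.of_forall fun t => by positivity) (hc.intervalIntegrable _ _)
    · rw [intervalIntegral.integral_symm]
      have g1 : 0 ≤ ∫ t in (2 * T - T ^ ((7:ℝ) / 8))..(T + T ^ ((7:ℝ) / 8)),
          ‖Dp (fun n => ((f n : ℝ) : ℂ) * (n : ℂ) ^ (-(Δ : ℂ))) Y (cl t)‖ ^ 2 :=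
        intervalIntegral.integral_nonneg h fun t _ => by positivity
      have g2 : 0 ≤ ∫ t in T..(2 * T), ‖Dp (fun n => ((f n : ℝ) : ℂ) * (n : ℂ) ^ (-(Δ : ℂ))) Y (cl t)‖ ^ 2 :=
        intervalIntegral.integral_nonneg (by linarith) fun t _ => by positivity
      linarith
  have e1 : (2 * T - T) = T := by ring
  rw [e1] at m1 m2
  have m1' := (abs_le.1 m1).2
  have m2' := (abs_le.1 m2).1
  have h5 : T * ∑ n ∈ Icc 1 Y, ‖((f n : ℝ) : ℂ) * (n : ℂ) ^ (-(Δ : ℂ))‖ ^ 2 / (n:ℝ) ≤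
      T * ∑ n ∈ Icc 1 Y, ‖((f n : ℝ) : ℂ)‖ ^ 2 / (n:ℝ) := mul_le_mul_of_nonneg_left h3 hT0.le
  have hDr : ∫ t in T..(2 * T), ‖Dr f Y (cl t)‖ ^ 2 = ∫ t in T..(2 * T), ‖Dp (fun n => ((f n : ℝ) : ℂ)) Y (cl t)‖ ^ 2 := rfl
  rw [hDr]
  -- the error term
  have hW1 : 1 ≤ WW k J b := by
    unfold WW
    have : 0 ≤ R1 (b (J + 1)) := by
      unfold R1
      positivity
    exact Real.one_le_exp (by positivity)
  have hl := log2k hk0 hk1
  have hL0 : 0 < Real.log T := Real.log_pos (by linarith)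
  have h6 : 8 * T ^ ((3:ℝ) / 20) ≤ 16 * (k * Real.log (2 / k)) * (T * WW k J b) := by
    have h7 : 1 ≤ k * Real.log T ^ ((1:ℝ) / 5) := by
      have h8 := mul_le_mul_of_nonneg_right hS.kT (Real.rpow_nonneg hL0.le ((1:ℝ) / 5))
      rw [← Real.rpow_add hL0] at h8
      norm_num at h8
      norm_num
      exact h8
    have h8 : T ^ ((3:ℝ) / 20) ≤ k * T := by
      calc T ^ ((3:ℝ) / 20) = T ^ ((3:ℝ) / 20) * 1 := (mul_one _).symm
        _ ≤ T ^ ((3:ℝ) / 20) * (k * Real.log T ^ ((1:ℝ) / 5)) := by gcongr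
        _ = k * (T ^ ((3:ℝ) / 20) * Real.log T ^ ((1:ℝ) / 5)) := by ring
        _ ≤ k * T := by gcongr
    have h9 : k * T ≤ k * (T * WW k J b) := by
      apply mul_le_mul_of_nonneg_left _ hk0.le
      exact le_mul_of_one_le_right hT0.le hW1
    have h10 : k * (T * WW k J b) ≤ 2 * (k * Real.log (2 / k)) * (T * WW k J b) := by
      apply mul_le_mul_of_nonneg_right _ (by positivity)
      nlinarith
    linarith
  have e2 : (1 - C * k * Real.log (2 / k)) * (T * WW k J b) = T * WW k J b - C * (k * Real.log (2 / k)) * (T * WW k J b) := by ring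
  rw [e2] at h1
  have e3 : (C + 16) * (k * Real.log (2 / k)) * (T * WW k J b) = C * (k * Real.log (2 / k)) * (T * WW k J b) +
      16 * (k * Real.log (2 / k)) * (T * WW k J b) := by ring
  rw [e3]
  linarith

/-- closeness in the mean -/
theorem close : ∃ e0 : ℝ, 0 < e0 ∧ ∀ e : ℝ, 0 < e → e ≤ e0 → ∃ C3 C : ℝ, 0 < C ∧ ∀ᶠ T : ℝ in atTop,
    ∀ k : ℝ, Real.log T ^ (-(1 / 5) : ℝ) ≤ k → k ≤ 1 → ∃ (J : ℕ) (K b : ℕ → ℕ), Su e C3 T k J K b ∧
    ∫ t in T..(2 * T), |‖riemannZeta (cl t)‖ ^ (2 * k) - ‖Dr (fQ b J (QE k K)) (y2 T) (cl t)‖ ^ 2| ≤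
      C * (k * Real.log (2 / k)) * (T * Real.log T ^ (k ^ 2)) ∧
    |(∫ t in T..(2 * T), ‖Dr (fQ b J (QE k K)) (y2 T) (cl t)‖ ^ 2) - T * Real.log T ^ (k ^ 2)| ≤
      C * (k * Real.log (2 / k)) * (T * Real.log T ^ (k ^ 2)) := by
  obtain ⟨e1, he1, hUX⟩ := g_UX
  obtain ⟨e2, he2, hUY⟩ := g_UY
  obtain ⟨e3, he3, hLM⟩ := low_mass
  refine ⟨min (min e1 e2) (min e3 (1 / 100)), by positivity, ?_⟩
  intro e he0 hee
  have hee1 : e ≤ e1 := hee.trans ((min_le_left _ _).trans (min_le_left _ _))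
  have hee2 : e ≤ e2 := hee.trans ((min_le_left _ _).trans (min_le_right _ _))
  have hee3 : e ≤ e3 := hee.trans ((min_le_right _ _).trans (min_le_left _ _))
  have hee4 : e ≤ 1 / 100 := hee.trans ((min_le_right _ _).trans (min_le_right _ _))
  obtain ⟨C3, hC3, hSU⟩ := Pool.Agent.Q203.KZ.t_SU e he0
  obtain ⟨CX, hCX, hUX⟩ := hUX e he0 hee1 C3 hC3
  obtain ⟨CY, hCY, hUY⟩ := hUY e he0 hee2 C3 hC3
  obtain ⟨CA, hCA, hLM⟩ := hLM e he0 hee3 C3 hC3
  obtain ⟨CR, hCR, hRN⟩ := Pool.Agent.Q203.KZ.t_RN e he0 hee4 C3 hC3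
  obtain ⟨CB, hCB, hLB⟩ := g_LB
  set M := Real.exp (2 * |Real.log CX| + 4 * Real.log C3 + 3) * (2 * |Real.log CX| + 4 * Real.log C3 + 3) with hM
  have hM0 : 0 ≤ M := by
    have := abs_nonneg (Real.log CX)
    have := Real.log_nonneg hC3
    have h0 : 0 ≤ 2 * |Real.log CX| + 4 * Real.log C3 + 3 := by linarith
    exact mul_nonneg (Real.exp_pos _).le h0
  -- `m ≤ 1 + A1 y`, `∫ Y ≤ (1 + A2 y) TL`, `TW ≤ (1 + 2 CR y) TL`
  obtain ⟨A1, hA1⟩ : ∃ A1 : ℝ, A1 = M + 2 + M * 2 := ⟨_, rfl⟩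
  obtain ⟨A2, hA2⟩ : ∃ A2 : ℝ, A2 = 2 * CY + 2 * CR + 2 * CY * (2 * CR) := ⟨_, rfl⟩
  have hA10 : 0 ≤ A1 := by rw [hA1]; positivity
  have hA20 : 0 ≤ A2 := by rw [hA2]; positivity
  obtain ⟨A3, hA3⟩ : ∃ A3 : ℝ, A3 = 2 * (A1 * (1 + A2)) + 2 * ((1 + A1) * (2 * (1 + 2 * CR))) + A2 + CB := ⟨_, rfl⟩
  obtain ⟨A4, hA4⟩ : ∃ A4 : ℝ, A4 = CR + CA * (1 + 2 * CR) := ⟨_, rfl⟩
  have hA30 : 0 ≤ A3 := by rw [hA3]; positivity
  have hA40 : 0 ≤ A4 := by rw [hA4]; positivity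
  refine ⟨C3, A3 + A2 + A4 + 1, by positivity, ?_⟩
  filter_upwards [hSU, hUX, hUY, hRN, hLM, hLB, pow_le_y2 (e := e) (by linarith), eventually_ge_atTop (3:ℝ)]
    with T hSU hUX hUY hRN hLM hLB hT hT3 k hk hk1
  obtain ⟨J, K, b, hS⟩ := hSU k hk hk1
  refine ⟨J, K, b, hS, ?_⟩
  have hX := (hUX k J K b hS).1
  have hY := hUY k J K b hS
  obtain ⟨hWl, hW, -, -, -⟩ := hRN k J K b hS
  have hA := hLM k J K b hS
  have hB := hLB k hk hk1
  have hk0 := hS.k0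
  have hT0 : 0 < T := by linarith
  have hL0 : 0 < Real.log T := Real.log_pos (by linarith)
  set y := k * Real.log (2 / k) with hy
  have hl2 := log2k hk0 hk1
  have hy0 : 0 ≤ y := by positivity
  have hy1 : y ≤ 1 := y_le_one hk0
  have hky := ksq_le_y hk0 hk1
  have hky1 := k_le_y hk0 hk1
  rw [← hy] at hky hky1
  have hKJ : (0:ℝ) < K J := by
    have := hS.big J le_rfl
    have h1 : 0 < 1 / e := by positivity
    linarith
  set X : ℝ → ℝ := fun t => ∑ c ∈ (range (J + 1)).powerset, ‖Dr (fQ b J (QX (k - 1) K c)) (y2 T) (cl t)‖ ^ 2 with hXd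
  set Y : ℝ → ℝ := fun t => ∑ c ∈ (range (J + 1)).powerset, ‖Dr (fQ b J (QX k K c)) (y2 T) (cl t)‖ ^ 2 with hYd
  have hXc : Continuous X := by
    refine continuous_finsetSum _ fun c _ => ?_
    exact (Dr_cont _ _).norm.pow 2
  have hYc : Continuous Y := by
    refine continuous_finsetSum _ fun c _ => ?_
    exact (Dr_cont _ _).norm.pow 2
  have hX0 : ∀ t, 0 ≤ X t := fun t => sum_nonneg fun c _ => sq_nonneg _
  have hY0 : ∀ t, 0 ≤ Y t := fun t => sum_nonneg fun c _ => sq_nonneg _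
  have hz := zeta_cl_cont
  set Λ := CX * (K J : ℝ) ^ 2 * Real.log (2 / k) with hΛ
  have hΛ0 : 0 < Λ := by positivity
  have hW0 : 0 < WW k J b := Real.exp_pos _
  set TW := T * WW k J b with hTW
  have hTW0 : 0 < TW := by positivity
  set TL := T * Real.log T ^ (k ^ 2) with hTL
  have hLk : 0 < Real.log T ^ (k ^ 2) := Real.rpow_pos_of_pos hL0 _
  have hTL0 : 0 < TL := by positivity
  -- integrals
  have hIX : ∫ t in T..(2 * T), ‖riemannZeta (cl t)‖ ^ 2 * X t ≤ Λ * TW := by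
    have h1 : ∫ t in T..(2 * T), ‖riemannZeta (cl t)‖ ^ 2 * X t ≤ ∫ t in (T / 4)..(8 * T), ‖riemannZeta (cl t)‖ ^ 2 * X t := by
      refine intervalIntegral.integral_mono_interval (by linarith) (by linarith) (by linarith) ?_ ?_
      · exact Filter.Eventually.of_forall fun t => mul_nonneg (sq_nonneg _) (hX0 t)
      · exact ((hz.norm.pow 2).mul hXc).intervalIntegrable _ _
    refine h1.trans (le_trans (le_of_eq ?_) hX)
    rw [← intervalIntegral.integral_finsetSum]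
    · refine intervalIntegral.integral_congr fun t _ => ?_
      simp only [hXd]
      rw [mul_sum]
    · intro c _
      exact ((hz.norm.pow 2).mul ((Dr_cont _ _).norm.pow 2)).intervalIntegrable _ _
  have hIY : ∫ t in T..(2 * T), Y t ≤ (1 + CY * k ^ 2) * TW := by
    refine le_trans (le_of_eq ?_) hY
    rw [← intervalIntegral.integral_finsetSum]
    intro c _
    exact ((Dr_cont _ _).norm.pow 2).intervalIntegrable _ _
  have hTWL : TW ≤ (1 + 2 * CR * y) * TL := by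
    have h6 : 1 + CR * k ^ 2 ≤ 1 + 2 * CR * y := by nlinarith
    calc TW ≤ T * ((1 + CR * k ^ 2) * Real.log T ^ (k ^ 2)) := mul_le_mul_of_nonneg_left hW hT0.le
      _ ≤ T * ((1 + 2 * CR * y) * Real.log T ^ (k ^ 2)) := by
          refine mul_le_mul_of_nonneg_left ?_ hT0.le
          exact mul_le_mul_of_nonneg_right h6 hLk.le
      _ = _ := by rw [hTL]; ring
  have hTWL1 : TW ≤ (1 + 2 * CR) * TL := by
    refine hTWL.trans ?_
    apply mul_le_mul_of_nonneg_right _ hTL0.le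
    have : 2 * CR * y ≤ 2 * CR * 1 := by gcongr
    linarith
  have hIY2 : ∫ t in T..(2 * T), Y t ≤ (1 + A2 * y) * TL := by
    have h5 : 1 + CY * k ^ 2 ≤ 1 + 2 * CY * y := by nlinarith
    calc ∫ t in T..(2 * T), Y t ≤ (1 + CY * k ^ 2) * TW := hIY
      _ ≤ (1 + 2 * CY * y) * ((1 + 2 * CR * y) * TL) := by
          apply mul_le_mul h5 hTWL hTW0.le (by positivity)
      _ = ((1 + 2 * CY * y) * (1 + 2 * CR * y)) * TL := by ring
      _ ≤ (1 + A2 * y) * TL := by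
          rw [hA2]
          exact mul_le_mul_of_nonneg_right (one_add_mul_le (by positivity) (by positivity) hy0 hy1) hTL0.le
  have hIY3 : ∫ t in T..(2 * T), Y t ≤ (1 + A2) * TL := by
    refine hIY2.trans ?_
    apply mul_le_mul_of_nonneg_right _ hTL0.le
    have : A2 * y ≤ A2 * 1 := by gcongr
    linarith
  -- pointwise
  set P : ℝ → ℝ := fun t => k * (‖riemannZeta (cl t)‖ ^ 2 * X t / Λ) with hP
  have hPc : Continuous P := ((((hz.norm.pow 2).mul hXc).div_const _).const_mul _)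
  have hP0 : ∀ t, 0 ≤ P t := fun t => mul_nonneg hk0.le (div_nonneg (mul_nonneg (sq_nonneg _) (hX0 t)) hΛ0.le)
  have hIP : ∫ t in T..(2 * T), P t ≤ k * TW := by
    simp only [hP]
    rw [intervalIntegral.integral_const_mul, intervalIntegral.integral_div]
    refine mul_le_mul_of_nonneg_left ?_ hk0.le
    rw [div_le_iff₀ hΛ0]
    linarith
  have hpt : ∀ t, ‖riemannZeta (cl t)‖ ^ (2 * k) * (1 - k ^ 2 / 2) ≤ Λ ^ k * (P t + (1 - k) * Y t) := by
    intro t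
    have h1 := pointwise Pool.Agent.Q175.KZ.t_PR Pool.Agent.Q75.KZ.t_PW hS he0 (by linarith) hT (cl t)
    have h2 : ‖riemannZeta (cl t)‖ ^ (2 * k) = (‖riemannZeta (cl t)‖ ^ 2) ^ k := by
      rw [Real.rpow_mul (norm_nonneg _), Real.rpow_two]
    have h3 := Real.geom_mean_le_arith_mean2_weighted hk0.le (by linarith : (0:ℝ) ≤ 1 - k)
      (p₁ := ‖riemannZeta (cl t)‖ ^ 2 * X t / Λ) (p₂ := Y t)
      (div_nonneg (mul_nonneg (sq_nonneg _) (hX0 t)) hΛ0.le) (hY0 t) (by ring)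
    have h4 : (‖riemannZeta (cl t)‖ ^ 2 * X t / Λ) ^ k = (‖riemannZeta (cl t)‖ ^ 2) ^ k * X t ^ k / Λ ^ k := by
      rw [Real.div_rpow (mul_nonneg (sq_nonneg _) (hX0 t)) hΛ0.le, Real.mul_rpow (sq_nonneg _) (hX0 t)]
    have hΛk : 0 < Λ ^ k := Real.rpow_pos_of_pos hΛ0 _
    have h5 : (‖riemannZeta (cl t)‖ ^ 2) ^ k * (X t ^ k * Y t ^ (1 - k)) ≤
        Λ ^ k * (P t + (1 - k) * Y t) := by
      rw [h4] at h3
      have h6 := mul_le_mul_of_nonneg_left h3 hΛk.le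
      refine le_trans (le_of_eq ?_) h6
      field_simp
    rw [h2]
    exact (mul_le_mul_of_nonneg_left h1 (Real.rpow_nonneg (sq_nonneg _) _)).trans h5
  have hzk : Continuous fun t : ℝ => ‖riemannZeta (cl t)‖ ^ (2 * k) :=
    hz.norm.rpow_const fun _ => Or.inr (by linarith)
  have hlam : Λ ^ k ≤ 1 + M * y := lam_pow hCX hC3 hk0 hk1 hKJ hS.KJ
  have hk2 : k ^ 2 ≤ 1 := by nlinarith
  have hpt2 : ∀ t, ‖riemannZeta (cl t)‖ ^ (2 * k) ≤ (1 + A1 * y) * (P t + Y t) := by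
    intro t
    have hg0 : 0 ≤ ‖riemannZeta (cl t)‖ ^ (2 * k) := Real.rpow_nonneg (norm_nonneg _) _
    have h1 : 1 ≤ (1 - k ^ 2 / 2) * (1 + 2 * y) := by nlinarith
    have h2 : P t + (1 - k) * Y t ≤ P t + Y t := by
      have := hY0 t
      nlinarith
    have h3 : 0 ≤ P t + Y t := add_nonneg (hP0 t) (hY0 t)
    calc ‖riemannZeta (cl t)‖ ^ (2 * k) ≤ ‖riemannZeta (cl t)‖ ^ (2 * k) * (1 - k ^ 2 / 2) * (1 + 2 * y) := by
          rw [mul_assoc]
          exact le_mul_of_one_le_right hg0 h1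
      _ ≤ (Λ ^ k * (P t + (1 - k) * Y t)) * (1 + 2 * y) := mul_le_mul_of_nonneg_right (hpt t) (by positivity)
      _ ≤ ((1 + M * y) * (P t + Y t)) * (1 + 2 * y) := by
          apply mul_le_mul_of_nonneg_right _ (by positivity)
          apply mul_le_mul hlam h2 _ (by positivity)
          have := hY0 t
          have := hP0 t
          have : 0 ≤ (1 - k) * Y t := mul_nonneg (by linarith) (hY0 t)
          linarith
      _ = ((1 + M * y) * (1 + 2 * y)) * (P t + Y t) := by ring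
      _ ≤ (1 + A1 * y) * (P t + Y t) := by
          rw [hA1]
          exact mul_le_mul_of_nonneg_right (one_add_mul_le hM0 (by norm_num) hy0 hy1) h3
  -- the difference with `Y`
  have hd : ∀ t, |‖riemannZeta (cl t)‖ ^ (2 * k) - Y t| ≤
      2 * (A1 * y) * Y t + 2 * (1 + A1 * y) * P t - ‖riemannZeta (cl t)‖ ^ (2 * k) + Y t := by
    intro t
    have h1 := hpt2 t
    have h2 := hP0 t
    have h3 := hY0 t
    have h4 : 0 ≤ A1 * y := by positivity
    have h5 : 0 ≤ A1 * y * Y t := by positivity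
    have h6 : 0 ≤ A1 * y * P t := by positivity
    rw [abs_le]
    constructor
    · nlinarith
    · nlinarith
  have hYcI : ∀ c₁ c₂ : ℝ, IntervalIntegrable Y volume c₁ c₂ := fun c₁ c₂ => hYc.intervalIntegrable _ _
  have hPcI : ∀ c₁ c₂ : ℝ, IntervalIntegrable P volume c₁ c₂ := fun c₁ c₂ => hPc.intervalIntegrable _ _
  have hgI : ∀ c₁ c₂ : ℝ, IntervalIntegrable (fun t : ℝ => ‖riemannZeta (cl t)‖ ^ (2 * k)) volume c₁ c₂ :=
    fun c₁ c₂ => hzk.intervalIntegrable _ _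
  have hID : ∫ t in T..(2 * T), |‖riemannZeta (cl t)‖ ^ (2 * k) - Y t| ≤ A3 * y * TL := by
    have h1 : ∫ t in T..(2 * T), |‖riemannZeta (cl t)‖ ^ (2 * k) - Y t| ≤
        ∫ t in T..(2 * T), (2 * (A1 * y) * Y t + 2 * (1 + A1 * y) * P t - ‖riemannZeta (cl t)‖ ^ (2 * k) + Y t) := by
      refine intervalIntegral.integral_mono_on (by linarith) ?_ ?_ fun t _ => hd t
      · exact ((hzk.sub hYc).abs).intervalIntegrable _ _
      · exact ((((hYc.const_mul _).add (hPc.const_mul _)).sub hzk).add hYc).intervalIntegrable _ _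
    refine h1.trans ?_
    rw [int_comb Y P _ hYc hPc hzk]
    have a1 : 2 * (A1 * y) * (∫ t in T..(2 * T), Y t) ≤ 2 * (A1 * y) * ((1 + A2) * TL) := by gcongr
    have a2 : 2 * (1 + A1 * y) * (∫ t in T..(2 * T), P t) ≤ 2 * (1 + A1) * ((2 * y) * ((1 + 2 * CR) * TL)) := by
      have b1 : 1 + A1 * y ≤ 1 + A1 := by
        have : A1 * y ≤ A1 * 1 := by gcongr
        linarith
      have b2 : ∫ t in T..(2 * T), P t ≤ (2 * y) * ((1 + 2 * CR) * TL) :=
        hIP.trans (mul_le_mul hky1 hTWL1 hTW0.le (by positivity))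
      have b3 : 0 ≤ ∫ t in T..(2 * T), P t := intervalIntegral.integral_nonneg (by linarith) fun t _ => hP0 t
      calc 2 * (1 + A1 * y) * (∫ t in T..(2 * T), P t) ≤ 2 * (1 + A1) * (∫ t in T..(2 * T), P t) := by gcongr
        _ ≤ _ := by gcongr
    have a3 : (1 - CB * k * Real.log (2 / k)) * (T * Real.log T ^ (k ^ 2)) = TL - CB * y * TL := by rw [hTL, hy]; ring
    rw [a3] at hB
    have a4 : A3 * y * TL = 2 * (A1 * y) * ((1 + A2) * TL) + 2 * (1 + A1) * ((2 * y) * ((1 + 2 * CR) * TL)) -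
        (TL - CB * y * TL) + (1 + A2 * y) * TL := by rw [hA3]; ring
    rw [a4]
    linarith only [a1, a2, hB, hIY2]
  -- the difference between `Y` and the square
  set A : ℝ → ℝ := fun t => ‖Dr (fQ b J (QE k K)) (y2 T) (cl t)‖ ^ 2 with hAd
  have hAc : Continuous A := (Dr_cont _ _).norm.pow 2
  have hAY : ∀ t, A t ≤ Y t := by
    intro t
    have h1 : ‖Dr (fQ b J (QX k K ∅)) (y2 T) (cl t)‖ ^ 2 ≤ Y t :=
      single_le_sum (f := fun c => ‖Dr (fQ b J (QX k K c)) (y2 T) (cl t)‖ ^ 2) (fun _ _ => sq_nonneg _)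
        (by rw [mem_powerset]; exact Finset.empty_subset _)
    rwa [QX_empty] at h1
  have hTWl : TL - CR * y * TL ≤ TW := by
    have h1 := mul_le_mul_of_nonneg_left hWl hT0.le
    calc TL - CR * y * TL = T * ((1 - CR * k * Real.log (2 / k)) * Real.log T ^ (k ^ 2)) := by rw [hTL, hy]; ring
      _ ≤ _ := h1
  have hIA : TL - A4 * y * TL ≤ ∫ t in T..(2 * T), A t := by
    refine le_trans ?_ hA
    have h1 : CA * y * TW ≤ CA * y * ((1 + 2 * CR) * TL) := by gcongr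
    have h2 : TL - A4 * y * TL = (TL - CR * y * TL) - CA * y * ((1 + 2 * CR) * TL) := by rw [hA4]; ring
    rw [h2]
    linarith only [h1, hTWl]
  have hIYA : ∫ t in T..(2 * T), |Y t - A t| ≤ (A2 + A4) * y * TL := by
    have h1 : ∫ t in T..(2 * T), |Y t - A t| = (∫ t in T..(2 * T), Y t) - ∫ t in T..(2 * T), A t := by
      rw [← intervalIntegral.integral_sub (hYcI _ _) (hAc.intervalIntegrable _ _)]
      refine intervalIntegral.integral_congr fun t _ => ?_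
      exact abs_of_nonneg (by linarith [hAY t])
    rw [h1]
    have h2 : (A2 + A4) * y * TL = (1 + A2 * y) * TL - (TL - A4 * y * TL) := by ring
    rw [h2]
    linarith only [hIY2, hIA]
  constructor
  · have h1 : ∫ t in T..(2 * T), |‖riemannZeta (cl t)‖ ^ (2 * k) - A t| ≤
        ∫ t in T..(2 * T), (|‖riemannZeta (cl t)‖ ^ (2 * k) - Y t| + |Y t - A t|) := by
      refine intervalIntegral.integral_mono_on (by linarith) ?_ ?_ fun t _ => abs_sub_le _ _ _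
      · exact ((hzk.sub hAc).abs).intervalIntegrable _ _
      · exact (((hzk.sub hYc).abs).add ((hYc.sub hAc).abs)).intervalIntegrable _ _
    have i1 : IntervalIntegrable (fun t => |‖riemannZeta (cl t)‖ ^ (2 * k) - Y t|) volume T (2 * T) :=
      ((hzk.sub hYc).abs).intervalIntegrable _ _
    have i2 : IntervalIntegrable (fun t => |Y t - A t|) volume T (2 * T) := ((hYc.sub hAc).abs).intervalIntegrable _ _
    rw [intervalIntegral.integral_add i1 i2] at h1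
    refine h1.trans ?_
    have h2 : 0 ≤ y * TL := by positivity
    have h3 : (A3 + A2 + A4 + 1) * y * TL = A3 * y * TL + (A2 + A4) * y * TL + y * TL := by ring
    rw [h3]
    linarith only [hID, hIYA, h2]
  · have h1 : ∫ t in T..(2 * T), A t ≤ ∫ t in T..(2 * T), Y t :=
      intervalIntegral.integral_mono_on (by linarith) (hAc.intervalIntegrable _ _) (hYcI _ _) fun t _ => hAY t
    have h2 : 0 ≤ y * TL := by positivity
    have h3 : 0 ≤ A3 * (y * TL) := by positivity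
    have h4 : 0 ≤ A2 * (y * TL) := by positivity
    have h5 : 0 ≤ A4 * (y * TL) := by positivity
    have h6 : (A3 + A2 + A4 + 1) * y * TL = A3 * (y * TL) + A2 * (y * TL) + A4 * (y * TL) + y * TL := by ring
    have h7 : A4 * y * TL = A4 * (y * TL) := by ring
    have h8 : (1 + A2 * y) * TL = TL + A2 * (y * TL) := by ring
    rw [h7] at hIA
    rw [h8] at hIY2
    rw [h6, abs_le]
    constructor
    · linarith only [hIA, h2, h3, h4]
    · linarith only [h1, hIY2, h2, h3, h5]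

end Pool.Agent.H510.SM
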