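import Pool.Agent.H510.SM.Tb
import Pool.Agent.H510.SM.Tc

/-!
The moments of small order of zeta on the critical line, multiplied with functionals of the shape of zeta to the right of the line.
-/

set_option autoImplicit false

open Filter Topology MeasureTheory Finset
open Pool.Agent.Q97.UM (dp N2 cv)
open Pool.Agent.Q276.CD Pool.Agent.Q276.KZ

namespace Pool.Agent.H510.SM

open Pool.Agent.H510.UZ Pool.Agent.H510.PC Pool.Agent.H510.EX

noncomputable section

theorem ek_one (p a : ℕ) : ek 1 p a = 1 / (a.factorial : ℝ) := by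
  unfold ek
  rw [one_pow]

theorem mf_anti {d n : ℕ} (h : d ∣ n) (hn : n ≠ 0) : mf (ek 1) n ≤ mf (ek 1) d := by
  unfold mf
  have hd : d ≠ 0 := ne_zero_of_dvd_ne_zero hn h
  have hsub : d.primeFactors ⊆ n.primeFactors := Nat.primeFactors_mono h hn
  have hpos : ∀ p a, 0 ≤ ek 1 p a := fun p a => by rw [ek_one]; positivity
  have hle : ∀ p a, ek 1 p a ≤ 1 := by
    intro p a
    rw [ek_one, div_le_one (by exact_mod_cast a.factorial_pos)]
    exact_mod_cast a.factorial_pos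
  rw [← Finset.prod_sdiff hsub]
  calc (∏ p ∈ n.primeFactors \ d.primeFactors, ek 1 p (n.factorization p)) * ∏ p ∈ d.primeFactors, ek 1 p (n.factorization p) ≤
      1 * ∏ p ∈ d.primeFactors, ek 1 p (n.factorization p) := by
        apply mul_le_mul_of_nonneg_right _ (Finset.prod_nonneg fun p _ => hpos _ _)
        exact Finset.prod_le_one (fun p _ => hpos _ _) fun p _ => hle _ _
    _ = ∏ p ∈ d.primeFactors, ek 1 p (n.factorization p) := one_mul _
    _ ≤ _ := by
        refine Finset.prod_le_prod (fun p _ => hpos _ _) fun p _ => ?_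
        rw [ek_one, ek_one]
        apply one_div_le_one_div_of_le (by exact_mod_cast Nat.factorial_pos _)
        have : d.factorization p ≤ n.factorization p := (Nat.factorization_le_iff_dvd hd hn).2 h p
        exact_mod_cast Nat.factorial_le this

theorem mf_nonneg' (n : ℕ) : 0 ≤ mf (ek 1) n := by
  unfold mf
  exact Finset.prod_nonneg fun p _ => by rw [ek_one]; positivity

/-- the coefficients decrease along divisibility -/
theorem fQ_DD {e C3 T k : ℝ} {J : ℕ} {K b : ℕ → ℕ} (h : Su e C3 T k J K b) (hT : T ^ e ≤ (y2 T : ℝ)) {B : ℕ} (hB : B < b 0) :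
    DD B ⌊T ^ e⌋₊ (fun n => ((fQ b J (QE k K) n : ℝ) : ℂ)) (fun n => fQ b J (QE k K) n) where
  eq := fun n => rfl
  nn := by
    intro n
    rw [Pool.Agent.Q65.KZ.fQ_apply]
    have hk := h.k0
    split_ifs
    · apply mul_nonneg (mf_nonneg' n)
      refine Finset.prod_nonneg fun j _ => ?_
      unfold QE
      split_ifs <;> positivity
    · exact le_rfl
  supp := by
    intro n hn
    have h1 := (Pool.Agent.Q175.KZ.t_PRM b J (QE k K) K (y2 T) (by have := h.b0; omega) h.mono (by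
      intro j _ m hm
      unfold QE
      rw [if_neg (by omega)]) (h.len1 hT)).2.1 n hn
    refine ⟨Nat.one_le_iff_ne_zero.2 (sm_iff.1 h1.2).1, ?_⟩
    apply Nat.le_floor
    refine le_trans ?_ h.len
    have h2 : n ≤ 4 ^ b 0 * ∏ j ∈ range (J + 1), b (j + 1) ^ (2 * K j) := by
      refine h1.1.trans ((Finset.prod_le_prod' fun j hj => ?_).trans (Nat.le_mul_of_pos_left _ (by positivity)))
      rw [Finset.mem_range] at hj
      exact Nat.pow_le_pow_right (h.b1 (by omega)) (by omega)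
    exact_mod_cast h2
  low := by
    intro n hn p hp hpn
    rw [Pool.Agent.Q65.KZ.fQ_apply] at hn
    have h1 : n ∈ Nat.smoothNumbers (b (J + 1)) ∧ Ob 0 (b 0) n = 0 := by
      by_contra hcon
      rw [if_neg hcon] at hn
      exact hn rfl
    by_contra hcon
    have h2 := Ob_pos (a := 0) (b := b 0) hp hpn (sm_iff.1 h1.1).1 ⟨Nat.zero_le _, by omega⟩
    omega
  mono := by
    intro d n hd hn
    have hk := h.k0
    have hk1 := h.k1
    have hq : ∀ j m, 0 ≤ QE k K j m := by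
      intro j m
      unfold QE
      split_ifs <;> positivity
    rw [Pool.Agent.Q65.KZ.fQ_apply, Pool.Agent.Q65.KZ.fQ_apply]
    by_cases h1 : n ∈ Nat.smoothNumbers (b (J + 1)) ∧ Ob 0 (b 0) n = 0
    · have h2 : d ∈ Nat.smoothNumbers (b (J + 1)) ∧ Ob 0 (b 0) d = 0 := by
        refine ⟨?_, ?_⟩
        · rw [sm_iff] at h1 ⊢
          exact ⟨ne_zero_of_dvd_ne_zero hn hd, fun p hp hpd => h1.1.2 p hp (hpd.trans hd)⟩
        · have := Ob_le_of_dvd 0 (b 0) hd hn
          omega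
      rw [if_pos h1, if_pos h2]
      apply mul_le_mul (mf_anti hd hn) _ (Finset.prod_nonneg fun j _ => hq _ _) (mf_nonneg' d)
      refine Finset.prod_le_prod (fun j _ => hq _ _) fun j _ => ?_
      have h3 := Ob_le_of_dvd (b j) (b (j + 1)) hd hn
      unfold QE
      split_ifs with h4 h5 h5
      · exact pow_le_pow_of_le_one hk.le hk1 h3
      · omega
      · positivity
      · exact le_rfl
    · rw [if_neg h1]
      split_ifs
      · exact mul_nonneg (mf_nonneg' d) (Finset.prod_nonneg fun j _ => hq _ _)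
      · exact le_rfl

/-- the polynomial of the library and the polynomial `dp` -/
theorem dp_eq {e C3 T k : ℝ} {J : ℕ} {K b : ℕ → ℕ} (h : Su e C3 T k J K b) (hT : T ^ e ≤ (y2 T : ℝ)) (hT1 : 1 ≤ T) (t : ℝ) :
    dp ⌊T ^ e⌋₊ (fun n => ((fQ b J (QE k K) n : ℝ) : ℂ)) t = Dr (fQ b J (QE k K)) (y2 T) (cl t) := by
  have hDD := fQ_DD h hT (B := 0) (by have := h.b0; omega)
  unfold dp Dr Dp cl
  refine Finset.sum_subset (Finset.Icc_subset_Icc_right ?_) ?_
  · have h1 : ((⌊T ^ e⌋₊ : ℕ) : ℝ) ≤ (y2 T : ℝ) := (Nat.floor_le (by positivity)).trans hT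
    exact_mod_cast h1
  · intro n _ hn
    have h1 : fQ b J (QE k K) n = 0 := by
      by_contra hcon
      have h2 := hDD.supp n hcon
      exact hn (Finset.mem_Icc.2 h2)
    simp [h1]

/-- the moments with a functional of the shape, orders which are not too small -/
theorem mom_Phi : ∀ K : Set ℂ, IsCompact K → (∀ z ∈ K, 1 / 2 < z.re ∧ z.re < 1) → ∀ D : ℝ, 0 ≤ D → ∀ ε : ℝ, 0 < ε →
    ∃ k₀ : ℝ, 0 < k₀ ∧ ∀ᶠ T : ℝ in atTop, ∀ Φ : (ℂ → ℂ) → ℝ, Fun K D Φ → ∀ k : ℝ, Real.log T ^ (-(1 / 5) : ℝ) ≤ k → k ≤ k₀ →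
      |(∫ t in T..(2 * T), Φ (zv t) * ‖riemannZeta (cl t)‖ ^ (2 * k)) - Real.log T ^ (k ^ 2) * ∫ t in T..(2 * T), Φ (zv t)| ≤
        ε * (T * Real.log T ^ (k ^ 2)) := by
  intro K hK hKs D hD ε hε
  obtain ⟨B₀, θ, hθ, htilt⟩ := tilt K hK hKs D hD (ε / 16) (by positivity)
  obtain ⟨e0, he0, hclose⟩ := close
  obtain ⟨e, he⟩ : ∃ e : ℝ, e = min (min e0 θ) (1 / 80) := ⟨_, rfl⟩
  have hee : 0 < e := by rw [he]; positivity
  have hee0 : e ≤ e0 := by rw [he]; exact (min_le_left _ _).trans (min_le_left _ _)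
  have heeθ : e ≤ θ := by rw [he]; exact (min_le_left _ _).trans (min_le_right _ _)
  have hee1 : e ≤ 1 / 80 := by rw [he]; exact min_le_right _ _
  obtain ⟨C3, C, hC, hcl⟩ := hclose e hee hee0
  -- the choice of `k₀`
  have hlim : Tendsto (fun k : ℝ => k * Real.log (2 / k)) (𝓝[>] 0) (𝓝 0) := by
    have h1 : Tendsto (fun k : ℝ => k * Real.log k) (𝓝[>] 0) (𝓝 0) := by
      have h3 := tendsto_log_mul_rpow_nhdsGT_zero (r := 1) one_pos
      refine h3.congr fun k => ?_
      rw [Real.rpow_one, mul_comm]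
    have h2 : Tendsto (fun k : ℝ => k * Real.log 2) (𝓝[>] 0) (𝓝 0) := by
      have : Tendsto (fun k : ℝ => k * Real.log 2) (𝓝 0) (𝓝 (0 * Real.log 2)) := tendsto_id.mul_const _
      rw [zero_mul] at this
      exact this.mono_left nhdsWithin_le_nhds
    have h3 := h2.sub h1
    rw [sub_zero] at h3
    refine h3.congr' ?_
    filter_upwards [self_mem_nhdsWithin] with k hk
    have hk0 : (0:ℝ) < k := hk
    rw [Real.log_div (by norm_num) hk0.ne']
    ring
  obtain ⟨k₁, hk₁, hk₁'⟩ : ∃ k₁ : ℝ, 0 < k₁ ∧ ∀ k : ℝ, 0 < k → k ≤ k₁ → C * (k * Real.log (2 / k)) ≤ min (ε / 16) (1 / 2) := by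
    have h1 : ∀ᶠ k : ℝ in 𝓝[>] 0, k * Real.log (2 / k) ≤ min (ε / 16) (1 / 2) / C := by
      have : 0 < min (ε / 16) (1 / 2) / C := by positivity
      exact hlim.eventually_le_const this
    obtain ⟨u, hu, hu'⟩ := mem_nhdsGT_iff_exists_Ioc_subset.1 h1
    refine ⟨u, hu, fun k hk0 hk => ?_⟩
    have h2 := hu' ⟨hk0, hk⟩
    simp only [Set.mem_ofPred_eq] at h2
    rw [le_div_iff₀ hC] at h2
    linarith
  obtain ⟨k₂, hk₂, hk₂'⟩ : ∃ k₂ : ℝ, 0 < k₂ ∧ ∀ k : ℝ, 0 < k → k ≤ k₂ → (B₀ : ℝ) + 1 ≤ 1 / k ^ 2 := by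
    refine ⟨1 / (B₀ + 1), by positivity, fun k hk0 hk => ?_⟩
    have h1 : (1:ℝ) ≤ B₀ + 1 := by
      have : (0:ℝ) ≤ B₀ := Nat.cast_nonneg _
      linarith
    rw [le_div_iff₀ (by positivity)]
    have h2 : k * (B₀ + 1) ≤ 1 := by
      rw [le_div_iff₀ (by positivity)] at hk
      exact hk
    have h3 : k ≤ 1 := by nlinarith
    nlinarith
  refine ⟨min (min k₁ k₂) 1, by positivity, ?_⟩
  filter_upwards [htilt, hcl, pow_le_y2 (e := e) (by linarith), Pool.Agent.Q97.UM.mv_rel (min (ε / 16) (1 / 2)) (by positivity),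
    eventually_ge_atTop (3:ℝ)] with T htilt hcl hy hMV hT3 Φ hΦ k hk hkk
  have hkk1 : k ≤ k₁ := hkk.trans ((min_le_left _ _).trans (min_le_left _ _))
  have hkk2 : k ≤ k₂ := hkk.trans ((min_le_left _ _).trans (min_le_right _ _))
  have hkk3 : k ≤ 1 := hkk.trans (min_le_right _ _)
  obtain ⟨J, Kk, b, hS, hd1, hd2⟩ := hcl k hk hkk3
  have hk0 := hS.k0
  have hT0 : 0 < T := by linarith
  have hT1 : 1 ≤ T := by linarith
  have hL0 : 0 < Real.log T := Real.log_pos (by linarith)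
  have hLk : 0 < Real.log T ^ (k ^ 2) := Real.rpow_pos_of_pos hL0 _
  set TL := T * Real.log T ^ (k ^ 2) with hTL
  have hTL0 : 0 < TL := by positivity
  have hCy := hk₁' k hk0 hkk1
  have hCy1 := hCy.trans (min_le_left _ _)
  have hCy2 := hCy.trans (min_le_right _ _)
  have hB : B₀ < b 0 := by
    have h1 := hk₂' k hk0 hkk2
    have h2 := hS.b0l
    have h3 : (B₀ : ℝ) + 1 ≤ b 0 := h1.trans h2
    have h4 : B₀ + 1 ≤ b 0 := by exact_mod_cast h3
    omega
  have hDD := fQ_DD hS hy hB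
  have hdp := dp_eq hS hy hT1
  set N := ⌊T ^ e⌋₊ with hN
  have hNle : (N : ℝ) ≤ T ^ e := Nat.floor_le (by positivity)
  have hNθ : (N : ℝ) ≤ T ^ θ := hNle.trans (Real.rpow_le_rpow_of_exponent_le hT1 heeθ)
  have hN40 : (N : ℝ) ≤ T ^ (1 / 40 : ℝ) := hNle.trans (Real.rpow_le_rpow_of_exponent_le hT1 (by linarith))
  set r : ℕ → ℂ := fun n => ((fQ b J (QE k Kk) n : ℝ) : ℂ) with hr
  have h1 := htilt Φ hΦ N r _ hNθ hDD
  have h2 := hMV N hN40 r
  simp only [hdp] at h1 h2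
  set A : ℝ → ℝ := fun t => ‖Dr (fQ b J (QE k Kk)) (y2 T) (cl t)‖ ^ 2 with hA
  have hAc : Continuous A := (Dr_cont _ _).norm.pow 2
  have hzk : Continuous fun t : ℝ => ‖riemannZeta (cl t)‖ ^ (2 * k) :=
    zeta_cl_cont.norm.rpow_const fun _ => Or.inr (by linarith)
  have hK1 : ∀ z ∈ K, z.re < 1 := fun z hz => (hKs z hz).2
  have hc3 : Continuous fun t : ℝ => Φ (zv t) := val_cont hK hK1 hD hΦ
  set n2 := N2 N r with hn2
  have hn20 : 0 ≤ n2 := Pool.Agent.Q97.UM.N2_nonneg _ _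
  set I₀ := ∫ t in T..(2 * T), Φ (zv t) with hI₀
  have hI1 : I₀ ≤ T := by
    have h5 : I₀ ≤ ∫ t in T..(2 * T), (1 : ℝ) :=
      intervalIntegral.integral_mono (by linarith) (hc3.intervalIntegrable _ _) (by simp) (fun t => hΦ.le_one _)
    simp only [intervalIntegral.integral_const, smul_eq_mul, mul_one] at h5
    linarith
  have hI0 : 0 ≤ I₀ := intervalIntegral.integral_nonneg (by linarith) fun t _ => hΦ.nonneg _
  set IA := ∫ t in T..(2 * T), A t with hIA
  -- `T n2` and `TL`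
  have h3 : |IA - T * n2| ≤ min (ε / 16) (1 / 2) * (T * n2) := h2
  have h4 : |IA - TL| ≤ min (ε / 16) (1 / 2) * TL := hd2.trans (mul_le_mul_of_nonneg_right hCy hTL0.le)
  have h5 : T * n2 ≤ 4 * TL := by
    have h6 := (abs_le.1 h3).1
    have h7 := (abs_le.1 h4).2
    have h8 : min (ε / 16) (1 / 2) * (T * n2) ≤ 1 / 2 * (T * n2) := by
      apply mul_le_mul_of_nonneg_right (min_le_right _ _) (by positivity)
    have h9 : min (ε / 16) (1 / 2) * TL ≤ 1 / 2 * TL := mul_le_mul_of_nonneg_right (min_le_right _ _) hTL0.le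
    linarith
  have h6 : |T * n2 - TL| ≤ 5 * (ε / 16) * TL := by
    have h7 : |T * n2 - TL| ≤ |IA - T * n2| + |IA - TL| := by
      rw [abs_sub_comm IA (T * n2)]
      exact abs_sub_le _ _ _
    have h8 : min (ε / 16) (1 / 2) * (T * n2) ≤ ε / 16 * (4 * TL) :=
      mul_le_mul (min_le_left _ _) h5 (by positivity) (by positivity)
    have h9 : min (ε / 16) (1 / 2) * TL ≤ ε / 16 * TL := mul_le_mul_of_nonneg_right (min_le_left _ _) hTL0.le
    linarith
  -- the three errors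
  have a1 : |(∫ t in T..(2 * T), Φ (zv t) * ‖riemannZeta (cl t)‖ ^ (2 * k)) - ∫ t in T..(2 * T), Φ (zv t) * A t| ≤ ε / 16 * TL := by
    have i1 : IntervalIntegrable (fun t => Φ (zv t) * ‖riemannZeta (cl t)‖ ^ (2 * k)) volume T (2 * T) :=
      (hc3.mul hzk).intervalIntegrable _ _
    have i2 : IntervalIntegrable (fun t => Φ (zv t) * A t) volume T (2 * T) := (hc3.mul hAc).intervalIntegrable _ _
    rw [← intervalIntegral.integral_sub i1 i2]
    refine (intervalIntegral.abs_integral_le_integral_abs (by linarith)).trans ?_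
    have h7 : ∫ t in T..(2 * T), |Φ (zv t) * ‖riemannZeta (cl t)‖ ^ (2 * k) - Φ (zv t) * A t| ≤
        ∫ t in T..(2 * T), |‖riemannZeta (cl t)‖ ^ (2 * k) - A t| := by
      refine intervalIntegral.integral_mono_on (by linarith) ?_ ?_ fun t _ => ?_
      · exact (((hc3.mul hzk).sub (hc3.mul hAc)).abs).intervalIntegrable _ _
      · exact ((hzk.sub hAc).abs).intervalIntegrable _ _
      · rw [← mul_sub, abs_mul, abs_of_nonneg (hΦ.nonneg _)]
        exact mul_le_of_le_one_left (abs_nonneg _) (hΦ.le_one _)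
    exact h7.trans (hd1.trans (mul_le_mul_of_nonneg_right hCy1 hTL0.le))
  have a2 : |(∫ t in T..(2 * T), Φ (zv t) * A t) - I₀ * n2| ≤ ε / 4 * TL := by
    refine h1.trans ?_
    calc ε / 16 * (T * n2) ≤ ε / 16 * (4 * TL) := by gcongr
      _ = _ := by ring
  have a3 : |I₀ * n2 - Real.log T ^ (k ^ 2) * I₀| ≤ 5 * (ε / 16) * TL := by
    have h7 : I₀ * n2 - Real.log T ^ (k ^ 2) * I₀ = I₀ / T * (T * n2 - TL) := by
      rw [hTL]
      field_simp
    rw [h7, abs_mul, abs_of_nonneg (by positivity)]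
    calc I₀ / T * |T * n2 - TL| ≤ 1 * (5 * (ε / 16) * TL) := by
          apply mul_le_mul _ h6 (abs_nonneg _) zero_le_one
          rw [div_le_one hT0]
          exact hI1
      _ = _ := one_mul _
  have hεTL : 0 < ε * TL := by positivity
  rw [abs_le] at a1 a2 a3 ⊢
  constructor <;> linarith [a1.1, a1.2, a2.1, a2.2, a3.1, a3.2]

end

end Pool.Agent.H510.SM
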