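import Pool.Agent.H510.SM.Td

/-!
The moments of small order: very small orders, and the whole interval `(0, T]`.
-/

set_option autoImplicit false

open Filter Topology MeasureTheory Finset
open Pool.Agent.Q276.CD Pool.Agent.Q276.KZ

namespace Pool.Agent.H510.SM

open Pool.Agent.H510.UZ Pool.Agent.H510.PC Pool.Agent.H510.EX

noncomputable section

theorem rpow_sub_one_le {g s : ℝ} (hg : 0 ≤ g) (hs0 : 0 < s) (hs1 : s ≤ 1) : |g ^ s - 1| ≤ |g - 1| := by
  rcases le_total 1 g with h | h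
  · have h1 : 1 ≤ g ^ s := Real.one_le_rpow h hs0.le
    have h2 : g ^ s ≤ g := by
      calc g ^ s ≤ g ^ (1:ℝ) := Real.rpow_le_rpow_of_exponent_le h hs1
        _ = g := Real.rpow_one g
    rw [abs_of_nonneg (by linarith), abs_of_nonneg (by linarith)]
    linarith
  · have h1 : g ^ s ≤ 1 := Real.rpow_le_one hg h hs0.le
    have h2 : g ≤ g ^ s := by
      rcases hg.eq_or_lt with h3 | h3
      · rw [← h3, Real.zero_rpow hs0.ne']
      · calc g = g ^ (1:ℝ) := (Real.rpow_one g).symm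
          _ ≤ g ^ s := Real.rpow_le_rpow_of_exponent_ge h3 h hs1
    rw [abs_of_nonpos (by linarith), abs_of_nonpos (by linarith)]
    linarith

/-- `(log T)^(c (log T)^(-2/5))` tends to `1` -/
theorem pow_tiny (c : ℝ) (δ : ℝ) (hδ : 0 < δ) : ∀ᶠ T : ℝ in atTop, ∀ u : ℝ, 0 ≤ u → u ≤ c * Real.log T ^ (-(1 / 5) : ℝ) →
    1 ≤ Real.log T ^ (u ^ 2) ∧ Real.log T ^ (u ^ 2) ≤ 1 + δ := by
  have h1 : Tendsto (fun L : ℝ => Real.log L * L ^ (-(2 / 5) : ℝ)) atTop (𝓝 0) := by
    have h2 := isLittleO_log_rpow_atTop (show (0:ℝ) < 2 / 5 by norm_num)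
    have h3 := h2.tendsto_div_nhds_zero
    refine h3.congr' ?_
    filter_upwards [eventually_gt_atTop 0] with L hL
    rw [Real.rpow_neg hL.le, div_eq_mul_inv]
  have h2 : Tendsto (fun L : ℝ => c ^ 2 * (Real.log L * L ^ (-(2 / 5) : ℝ))) atTop (𝓝 0) := by
    simpa using h1.const_mul (c ^ 2)
  have h3 : 0 < Real.log (1 + δ) := Real.log_pos (by linarith)
  have h4 := h2.comp Real.tendsto_log_atTop
  filter_upwards [h4.eventually_le_const h3, eventually_ge_atTop (Real.exp 1)] with T hT hTe u hu0 hu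
  have hL1 : 1 ≤ Real.log T := by
    rw [Real.le_log_iff_exp_le (lt_of_lt_of_le (Real.exp_pos _) hTe)]
    exact hTe
  have hL0 : 0 < Real.log T := by linarith
  constructor
  · exact Real.one_le_rpow hL1 (sq_nonneg _)
  · rw [Real.rpow_def_of_pos hL0, ← Real.log_le_log_iff (Real.exp_pos _) (by linarith), Real.log_exp]
    refine le_trans ?_ hT
    simp only [Function.comp]
    have h5 : u ^ 2 ≤ c ^ 2 * Real.log T ^ (-(2 / 5) : ℝ) := by
      calc u ^ 2 ≤ (c * Real.log T ^ (-(1 / 5) : ℝ)) ^ 2 := pow_le_pow_left₀ hu0 hu 2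
        _ = c ^ 2 * (Real.log T ^ (-(1 / 5) : ℝ)) ^ 2 := by rw [mul_pow]
        _ = _ := by
            rw [← Real.rpow_natCast (Real.log T ^ (-(1 / 5) : ℝ)), ← Real.rpow_mul hL0.le]
            norm_num
    calc Real.log (Real.log T) * u ^ 2 ≤ Real.log (Real.log T) * (c ^ 2 * Real.log T ^ (-(2 / 5) : ℝ)) := by
          apply mul_le_mul_of_nonneg_left h5 (Real.log_nonneg hL1)
      _ = _ := by ring

/-- very small orders -/
theorem tiny (δ : ℝ) (hδ : 0 < δ) : ∀ᶠ T : ℝ in atTop, ∀ k : ℝ, 0 < k → k ≤ Real.log T ^ (-(1 / 5) : ℝ) →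
    ∫ t in T..(2 * T), |‖riemannZeta (cl t)‖ ^ (2 * k) - 1| ≤ δ * T := by
  obtain ⟨C, hC, hdy⟩ := dyadic
  obtain ⟨μ, hμ⟩ : ∃ μ : ℝ, μ = min 1 (δ ^ 2 / 32) := ⟨_, rfl⟩
  have hμ0 : 0 < μ := by rw [hμ]; positivity
  have hμ1 : μ ≤ 1 := by rw [hμ]; exact min_le_left _ _
  have hμ2 : μ ≤ δ ^ 2 / 32 := by rw [hμ]; exact min_le_right _ _
  have hz : Tendsto (fun T : ℝ => Real.log T ^ (-(1 / 5) : ℝ)) atTop (𝓝 0) :=
    (tendsto_rpow_neg_atTop (by norm_num : (0:ℝ) < 1 / 5)).comp Real.tendsto_log_atTop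
  have hlim : Tendsto (fun k : ℝ => C * (k * Real.log (2 / k))) (𝓝[>] 0) (𝓝 0) := by
    have h1 : Tendsto (fun k : ℝ => k * Real.log k) (𝓝[>] 0) (𝓝 0) := by
      have h3 := tendsto_log_mul_rpow_nhdsGT_zero (r := 1) one_pos
      refine h3.congr fun k => ?_
      rw [Real.rpow_one, mul_comm]
    have h2 : Tendsto (fun k : ℝ => k * Real.log 2) (𝓝[>] 0) (𝓝 0) := by
      have : Tendsto (fun k : ℝ => k * Real.log 2) (𝓝 0) (𝓝 (0 * Real.log 2)) := tendsto_id.mul_const _
      rw [zero_mul] at this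
      exact this.mono_left nhdsWithin_le_nhds
    have h3 := h2.sub h1
    rw [sub_zero] at h3
    have h4 : Tendsto (fun k : ℝ => k * Real.log (2 / k)) (𝓝[>] 0) (𝓝 0) := by
      refine h3.congr' ?_
      filter_upwards [self_mem_nhdsWithin] with k hk
      have hk0 : (0:ℝ) < k := hk
      rw [Real.log_div (by norm_num) hk0.ne']
      ring
    simpa using h4.const_mul C
  have hz1 : Tendsto (fun T : ℝ => Real.log T ^ (-(1 / 5) : ℝ)) atTop (𝓝[>] 0) := by
    rw [tendsto_nhdsWithin_iff]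
    refine ⟨hz, ?_⟩
    filter_upwards [eventually_gt_atTop 1] with T hT
    exact Real.rpow_pos_of_pos (Real.log_pos hT) _
  have hz2 : Tendsto (fun T : ℝ => 2 * Real.log T ^ (-(1 / 5) : ℝ)) atTop (𝓝[>] 0) := by
    rw [tendsto_nhdsWithin_iff]
    refine ⟨by simpa using hz.const_mul 2, ?_⟩
    filter_upwards [eventually_gt_atTop 1] with T hT
    have := Real.rpow_pos_of_pos (Real.log_pos hT) (-(1 / 5) : ℝ)
    show (0:ℝ) < _
    positivity
  filter_upwards [hdy, (hlim.comp hz1).eventually_le_const hμ0, (hlim.comp hz2).eventually_le_const hμ0, pow_tiny 2 μ hμ0,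
    hz.eventually_le_const (show (0:ℝ) < 1 / 2 by norm_num), eventually_gt_atTop 3] with T hdy v1 v2 v3 v4 hT k hk0 hk
  simp only [Function.comp] at v1 v2
  have hT0 : 0 < T := by linarith
  have hL0 : 0 < Real.log T := Real.log_pos (by linarith)
  set κ := Real.log T ^ (-(1 / 5) : ℝ) with hκ
  have hκ0 : 0 < κ := Real.rpow_pos_of_pos hL0 _
  have d1 := (abs_le.1 (hdy κ le_rfl (by linarith))).1
  have d2 := (abs_le.1 (hdy (2 * κ) (by linarith) (by linarith))).2
  obtain ⟨w1, w2⟩ := v3 κ hκ0.le (by linarith)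
  obtain ⟨w3, w4⟩ := v3 (2 * κ) (by linarith) le_rfl
  set g : ℝ → ℝ := fun t => ‖riemannZeta (cl t)‖ ^ (2 * κ) with hg
  have hgc : Continuous g := zeta_cl_cont.norm.rpow_const fun _ => Or.inr (by linarith)
  have hg0 : ∀ t, 0 ≤ g t := fun t => Real.rpow_nonneg (norm_nonneg _) _
  have hgsq : ∀ t, ‖riemannZeta (cl t)‖ ^ (2 * (2 * κ)) = g t ^ 2 := by
    intro t
    simp only [hg]
    rw [← Real.rpow_natCast (‖riemannZeta (cl t)‖ ^ (2 * κ)), ← Real.rpow_mul (norm_nonneg _)]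
    congr 1
    push_cast
    ring
  simp only [hgsq] at d2
  have b1 : C * κ * Real.log (2 / κ) ≤ μ := by linarith
  have b2 : C * (2 * κ) * Real.log (2 / (2 * κ)) ≤ μ := by linarith
  have e1 : T * (1 - μ) ≤ ∫ t in T..(2 * T), g t := by
    have h1 : C * κ * Real.log (2 / κ) * (T * Real.log T ^ (κ ^ 2)) ≤ μ * (T * Real.log T ^ (κ ^ 2)) := by
      apply mul_le_mul_of_nonneg_right b1 (by positivity)
    have h2 : T * Real.log T ^ (κ ^ 2) * (1 - μ) ≤ ∫ t in T..(2 * T), g t := by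
      have : ∫ t in T..(2 * T), g t = ∫ t in T..(2 * T), ‖riemannZeta (cl t)‖ ^ (2 * κ) := rfl
      rw [this]
      linarith
    refine le_trans ?_ h2
    apply mul_le_mul_of_nonneg_right _ (by linarith)
    exact le_mul_of_one_le_right hT0.le w1
  have e2 : ∫ t in T..(2 * T), g t ^ 2 ≤ T * (1 + 3 * μ) := by
    have h1 : C * (2 * κ) * Real.log (2 / (2 * κ)) * (T * Real.log T ^ ((2 * κ) ^ 2)) ≤ μ * (T * Real.log T ^ ((2 * κ) ^ 2)) := by
      apply mul_le_mul_of_nonneg_right b2 (by positivity)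
    have h2 : ∫ t in T..(2 * T), g t ^ 2 ≤ (1 + μ) * (T * Real.log T ^ ((2 * κ) ^ 2)) := by linarith
    have h3 : (1 + μ) * (T * Real.log T ^ ((2 * κ) ^ 2)) ≤ (1 + μ) * (T * (1 + μ)) := by gcongr
    have h5 : (1 + μ) * (1 + μ) ≤ 1 + 3 * μ := by nlinarith
    have h4 : (1 + μ) * (T * (1 + μ)) ≤ T * (1 + 3 * μ) := by
      calc (1 + μ) * (T * (1 + μ)) = T * ((1 + μ) * (1 + μ)) := by ring
        _ ≤ _ := mul_le_mul_of_nonneg_left h5 hT0.le
    linarith
  have e3 : ∫ t in T..(2 * T), (g t - 1) ^ 2 ≤ 5 * μ * T := by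
    have h1 : ∀ t, (g t - 1) ^ 2 = g t ^ 2 - 2 * g t + 1 := fun t => by ring
    have i1 : IntervalIntegrable (fun t => g t ^ 2) volume T (2 * T) := (hgc.pow 2).intervalIntegrable _ _
    have i2 : IntervalIntegrable (fun t => 2 * g t) volume T (2 * T) := (hgc.const_mul 2).intervalIntegrable _ _
    have i3 : IntervalIntegrable (fun t => g t ^ 2 - 2 * g t) volume T (2 * T) := i1.sub i2
    simp only [h1]
    rw [intervalIntegral.integral_add i3 (by simp), intervalIntegral.integral_sub i1 i2, intervalIntegral.integral_const_mul]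
    simp only [intervalIntegral.integral_const, smul_eq_mul, mul_one]
    linarith
  have hs : ∀ t, |‖riemannZeta (cl t)‖ ^ (2 * k) - 1| ≤ |g t - 1| := by
    intro t
    have h1 : ‖riemannZeta (cl t)‖ ^ (2 * k) = g t ^ (k / κ) := by
      simp only [hg]
      rw [← Real.rpow_mul (norm_nonneg _)]
      congr 1
      field_simp
    rw [h1]
    exact rpow_sub_one_le (hg0 t) (by positivity) (by rw [div_le_one hκ0]; exact hk)
  have hs2 : ∀ t, |g t - 1| ≤ δ / 2 + (g t - 1) ^ 2 / (2 * δ) := by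
    intro t
    rw [← sq_abs (g t - 1)]
    have h1 : 0 ≤ (|g t - 1| - δ) ^ 2 := sq_nonneg _
    rw [← sub_nonneg]
    have h2 : δ / 2 + |g t - 1| ^ 2 / (2 * δ) - |g t - 1| = (|g t - 1| - δ) ^ 2 / (2 * δ) := by
      field_simp
      ring
    rw [h2]
    positivity
  have hzk : Continuous fun t : ℝ => ‖riemannZeta (cl t)‖ ^ (2 * k) :=
    zeta_cl_cont.norm.rpow_const fun _ => Or.inr (by linarith)
  have h1 : ∫ t in T..(2 * T), |‖riemannZeta (cl t)‖ ^ (2 * k) - 1| ≤ ∫ t in T..(2 * T), (δ / 2 + (g t - 1) ^ 2 / (2 * δ)) := by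
    refine intervalIntegral.integral_mono_on (by linarith) ?_ ?_ fun t _ => (hs t).trans (hs2 t)
    · exact ((hzk.sub continuous_const).abs).intervalIntegrable _ _
    · exact (continuous_const.add (((hgc.sub continuous_const).pow 2).div_const _)).intervalIntegrable _ _
  have i4 : IntervalIntegrable (fun t => (g t - 1) ^ 2 / (2 * δ)) volume T (2 * T) :=
    (((hgc.sub continuous_const).pow 2).div_const _).intervalIntegrable _ _
  have h7 : ∫ t in T..(2 * T), (g t - 1) ^ 2 / (2 * δ) = (∫ t in T..(2 * T), (g t - 1) ^ 2) / (2 * δ) := intervalIntegral.integral_div _ _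
  rw [intervalIntegral.integral_add (by simp) i4, h7, intervalIntegral.integral_const, smul_eq_mul] at h1
  refine h1.trans ?_
  have h2 : (∫ t in T..(2 * T), (g t - 1) ^ 2) / (2 * δ) ≤ δ / 2 * T := by
    rw [div_le_iff₀ (by positivity)]
    refine e3.trans ?_
    have h5 : 5 * μ ≤ δ ^ 2 := by nlinarith [sq_nonneg δ]
    calc 5 * μ * T ≤ δ ^ 2 * T := mul_le_mul_of_nonneg_right h5 hT0.le
      _ = _ := by ring
  have h6 : (2 * T - T) * (δ / 2) = δ / 2 * T := by ring
  rw [h6]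
  linarith

/-- all small orders, on `[T, 2T]` -/
theorem mom_all : ∀ K : Set ℂ, IsCompact K → (∀ z ∈ K, 1 / 2 < z.re ∧ z.re < 1) → ∀ D : ℝ, 0 ≤ D → ∀ ε : ℝ, 0 < ε →
    ∃ k₀ : ℝ, 0 < k₀ ∧ k₀ ≤ 1 ∧ ∀ᶠ T : ℝ in atTop, ∀ Φ : (ℂ → ℂ) → ℝ, Fun K D Φ → ∀ k : ℝ, 0 < k → k ≤ k₀ →
      |(∫ t in T..(2 * T), Φ (zv t) * ‖riemannZeta (cl t)‖ ^ (2 * k)) - Real.log T ^ (k ^ 2) * ∫ t in T..(2 * T), Φ (zv t)| ≤
        ε * (T * Real.log T ^ (k ^ 2)) := by
  intro K hK hKs D hD ε hε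
  obtain ⟨k₀, hk₀, h⟩ := mom_Phi K hK hKs D hD ε hε
  refine ⟨min k₀ 1, by positivity, min_le_right _ _, ?_⟩
  filter_upwards [h, tiny (ε / 2) (by positivity), pow_tiny 1 (ε / 2) (by positivity), eventually_gt_atTop 3] with
    T h1 h2 h3 hT Φ hΦ k hk0 hk
  rcases le_total (Real.log T ^ (-(1 / 5) : ℝ)) k with hc | hc
  · exact h1 Φ hΦ k hc (hk.trans (min_le_left _ _))
  · have hT0 : 0 < T := by linarith
    have hL0 : 0 < Real.log T := Real.log_pos (by linarith)
    have a1 := h2 k hk0 hc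
    obtain ⟨a2, a3⟩ := h3 k hk0.le (by linarith)
    have hK1 : ∀ z ∈ K, z.re < 1 := fun z hz => (hKs z hz).2
    have hc3 : Continuous fun t : ℝ => Φ (zv t) := val_cont hK hK1 hD hΦ
    have hzk : Continuous fun t : ℝ => ‖riemannZeta (cl t)‖ ^ (2 * k) :=
      zeta_cl_cont.norm.rpow_const fun _ => Or.inr (by linarith)
    set I₀ := ∫ t in T..(2 * T), Φ (zv t) with hI₀
    have hI1 : I₀ ≤ T := by
      have h5 : I₀ ≤ ∫ t in T..(2 * T), (1 : ℝ) :=
        intervalIntegral.integral_mono (by linarith) (hc3.intervalIntegrable _ _) (by simp) (fun t => hΦ.le_one _)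
      simp only [intervalIntegral.integral_const, smul_eq_mul, mul_one] at h5
      linarith
    have hI0 : 0 ≤ I₀ := intervalIntegral.integral_nonneg (by linarith) fun t _ => hΦ.nonneg _
    have b1 : |(∫ t in T..(2 * T), Φ (zv t) * ‖riemannZeta (cl t)‖ ^ (2 * k)) - I₀| ≤ ε / 2 * T := by
      have i1 : IntervalIntegrable (fun t => Φ (zv t) * ‖riemannZeta (cl t)‖ ^ (2 * k)) volume T (2 * T) :=
        (hc3.mul hzk).intervalIntegrable _ _
      have i2 : IntervalIntegrable (fun t => Φ (zv t)) volume T (2 * T) := hc3.intervalIntegrable _ _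
      rw [hI₀, ← intervalIntegral.integral_sub i1 i2]
      refine (intervalIntegral.abs_integral_le_integral_abs (by linarith)).trans (le_trans ?_ a1)
      refine intervalIntegral.integral_mono_on (by linarith) ?_ ?_ fun t _ => ?_
      · exact (((hc3.mul hzk).sub hc3).abs).intervalIntegrable _ _
      · exact ((hzk.sub continuous_const).abs).intervalIntegrable _ _
      · have : Φ (zv t) * ‖riemannZeta (cl t)‖ ^ (2 * k) - Φ (zv t) = Φ (zv t) * (‖riemannZeta (cl t)‖ ^ (2 * k) - 1) := by ring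
        rw [this, abs_mul, abs_of_nonneg (hΦ.nonneg _)]
        exact mul_le_of_le_one_left (abs_nonneg _) (hΦ.le_one _)
    have b2 : |I₀ - Real.log T ^ (k ^ 2) * I₀| ≤ ε / 2 * T := by
      have : I₀ - Real.log T ^ (k ^ 2) * I₀ = -((Real.log T ^ (k ^ 2) - 1) * I₀) := by ring
      rw [this, abs_neg, abs_mul, abs_of_nonneg (by linarith), abs_of_nonneg hI0]
      exact mul_le_mul (by linarith) hI1 hI0 (by positivity)
    have b3 : ε * T ≤ ε * (T * Real.log T ^ (k ^ 2)) := by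
      apply mul_le_mul_of_nonneg_left _ hε.le
      exact le_mul_of_one_le_right hT0.le a2
    rw [abs_le] at b1 b2 ⊢
    constructor <;> linarith [b1.1, b1.2, b2.1, b2.2]

end

end Pool.Agent.H510.SM
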