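import Pool.Agent.H510.SM.Te
import Pool.Agent.H510.PC.Cls
import Pool.Agent.H510.EX.Fin

/-!
The moments of small order: the whole interval `(0, T]`, and the classes.
-/

set_option autoImplicit false

open Filter Topology MeasureTheory Finset
open Pool.Agent.Q276.CD Pool.Agent.Q276.KZ

namespace Pool.Agent.H510.SM

open Pool.Agent.H510.UZ Pool.Agent.H510.PC Pool.Agent.H510.EX

noncomputable section

/-- the heights up to `U` -/
theorem up_to : ∃ M : ℝ, 0 < M ∧ ∀ᶠ U : ℝ in atTop, ∀ k : ℝ, 0 < k → k ≤ 1 →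
    ∫ t in (0:ℝ)..U, ‖riemannZeta (cl t)‖ ^ (2 * k) ≤ M * (U * Real.log U ^ (k ^ 2)) := by
  obtain ⟨C, hC, h⟩ := main
  refine ⟨2 + 4 * C, by positivity, ?_⟩
  filter_upwards [h 0, eventually_ge_atTop (Real.exp 1)] with U hU hUe k hk0 hk1
  have hU0 : 0 < U := lt_of_lt_of_le (Real.exp_pos _) hUe
  have hL1 : 1 ≤ Real.log U := by
    rw [Real.le_log_iff_exp_le hU0]; exact hUe
  have hL0 : 0 < Real.log U := by linarith
  have h1 := (abs_le.1 (hU (2 * k) (by linarith) (by linarith))).2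
  have e1 : (2 * k) ^ 2 / 4 = k ^ 2 := by ring
  rw [e1] at h1
  have e2 : ∫ u in (0:ℝ)..1, ‖riemannZeta (1 / 2 + ((0:ℝ) : ℂ) * Complex.I + (u : ℂ) * (U : ℂ) * Complex.I)‖ ^ (2 * k) =
      U⁻¹ * ∫ t in (0:ℝ)..U, ‖riemannZeta (cl t)‖ ^ (2 * k) := by
    have h2 := intervalIntegral.integral_comp_mul_right (a := 0) (b := 1) (c := U)
      (fun t : ℝ => ‖riemannZeta (cl t)‖ ^ (2 * k)) hU0.ne'
    rw [zero_mul, one_mul, smul_eq_mul] at h2
    rw [← h2]
    apply intervalIntegral.integral_congr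
    intro u _
    simp only [cl]
    congr 3
    push_cast
    ring
  rw [e2] at h1
  have hP : 0 < Real.log U ^ (k ^ 2) := Real.rpow_pos_of_pos hL0 _
  have h3 : C * (2 * k) * Real.log (4 / (2 * k)) ≤ 4 * C := by
    have h4 : Real.log (4 / (2 * k)) ≤ 4 / (2 * k) := by
      have := Real.log_le_sub_one_of_pos (show 0 < 4 / (2 * k) by positivity)
      linarith
    calc C * (2 * k) * Real.log (4 / (2 * k)) ≤ C * (2 * k) * (4 / (2 * k)) := by gcongr
      _ = 4 * C := by field_simp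
  have h4 : Real.log U ^ (-(1 / 7) : ℝ) ≤ 1 := Real.rpow_le_one_of_one_le_of_nonpos hL1 (by norm_num)
  have h5 : U⁻¹ * ∫ t in (0:ℝ)..U, ‖riemannZeta (cl t)‖ ^ (2 * k) ≤ (2 + 4 * C) * Real.log U ^ (k ^ 2) := by
    have : (C * (2 * k) * Real.log (4 / (2 * k)) + Real.log U ^ (-(1 / 7) : ℝ)) * Real.log U ^ (k ^ 2) ≤
        (4 * C + 1) * Real.log U ^ (k ^ 2) := by gcongr
    linarith
  rw [inv_mul_le_iff₀ hU0] at h5
  linarith

theorem hzk (k : ℝ) (hk : 0 < k) : Continuous fun t : ℝ => ‖riemannZeta (cl t)‖ ^ (2 * k) :=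
  zeta_cl_cont.norm.rpow_const fun _ => Or.inr (by linarith)

/-- all small orders, on `(0, T]` -/
theorem mom_glob : ∀ K : Set ℂ, IsCompact K → (∀ z ∈ K, 1 / 2 < z.re ∧ z.re < 1) → ∀ D : ℝ, 0 ≤ D → ∀ ε : ℝ, 0 < ε →
    ∃ k₀ : ℝ, 0 < k₀ ∧ k₀ ≤ 1 ∧ ∀ᶠ T : ℝ in atTop, ∀ Φ : (ℂ → ℂ) → ℝ, Fun K D Φ → ∀ k : ℝ, 0 < k → k ≤ k₀ →
      |(∫ t in (0:ℝ)..T, Φ (zv t) * ‖riemannZeta (cl t)‖ ^ (2 * k)) - Real.log T ^ (k ^ 2) * ∫ t in (0:ℝ)..T, Φ (zv t)| ≤
        ε * (T * Real.log T ^ (k ^ 2)) := by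
  intro K hK hKs D hD ε hε
  obtain ⟨M, hM, hM1⟩ := up_to
  obtain ⟨k₀, hk₀, hk₀1, h⟩ := mom_all K hK hKs D hD (ε / 4) (by positivity)
  refine ⟨k₀, hk₀, hk₀1, ?_⟩
  obtain ⟨J, hJ⟩ := exists_pow_lt_of_lt_one (show 0 < ε / (4 * (M + 1)) by positivity) (show (1 / 2 : ℝ) < 1 by norm_num)
  obtain ⟨T₀, hT₀⟩ := Filter.eventually_atTop.1 (h.and hM1)
  obtain ⟨δ, hδ⟩ : ∃ δ : ℝ, δ = min (ε / 4) (1 / 2) := ⟨_, rfl⟩
  have hδ0 : 0 < δ := by rw [hδ]; positivity
  have hδ1 : δ ≤ ε / 4 := by rw [hδ]; exact min_le_left _ _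
  have hδ2 : δ ≤ 1 / 2 := by rw [hδ]; exact min_le_right _ _
  filter_upwards [Real.tendsto_log_atTop.eventually_ge_atTop (J * Real.log 2 / δ), eventually_ge_atTop (2 ^ J * max T₀ 16),
    eventually_ge_atTop (Real.exp 1)] with T hlog hTb hTe Φ hΦ k hk0 hk
  have hT0 : 0 < T := lt_of_lt_of_le (Real.exp_pos _) hTe
  have hL1 : 1 ≤ Real.log T := by
    rw [Real.le_log_iff_exp_le hT0]; exact hTe
  have hL0 : 0 < Real.log T := by linarith
  have hk1 : k ≤ 1 := hk.trans hk₀1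
  have hK1 : ∀ z ∈ K, z.re < 1 := fun z hz => (hKs z hz).2
  have hc3 : Continuous fun t : ℝ => Φ (zv t) := val_cont hK hK1 hD hΦ
  have hz := hzk k hk0
  set P := Real.log T ^ (k ^ 2) with hP
  have hP0 : 0 < P := Real.rpow_pos_of_pos hL0 _
  set F : ℝ → ℝ := fun t => Φ (zv t) * ‖riemannZeta (cl t)‖ ^ (2 * k) - P * Φ (zv t) with hF
  have hFc : Continuous F := (hc3.mul hz).sub (hc3.const_mul P)
  have hFint : ∀ a b : ℝ, ∫ t in a..b, F t = (∫ t in a..b, Φ (zv t) * ‖riemannZeta (cl t)‖ ^ (2 * k)) - P * ∫ t in a..b, Φ (zv t) := by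
    intro a b
    have i1 : IntervalIntegrable (fun t => Φ (zv t) * ‖riemannZeta (cl t)‖ ^ (2 * k)) volume a b :=
      (hc3.mul hz).intervalIntegrable _ _
    have i2 : IntervalIntegrable (fun t => P * Φ (zv t)) volume a b := (hc3.const_mul P).intervalIntegrable _ _
    rw [← intervalIntegral.integral_const_mul, ← intervalIntegral.integral_sub i1 i2]
  have hJT : max T₀ 16 ≤ T / 2 ^ J := by
    rw [le_div_iff₀ (by positivity)]
    linarith
  -- one block
  have hblock : ∀ S : ℝ, T / 2 ^ J ≤ S → 2 * S ≤ T → |∫ t in S..(2 * S), F t| ≤ ε / 2 * (S * P) := by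
    intro S hS1 hS2
    have hST₀ : T₀ ≤ S := (le_max_left _ _).trans (hJT.trans hS1)
    have hS16 : 16 ≤ S := (le_max_right _ _).trans (hJT.trans hS1)
    have hS0 : 0 < S := by linarith
    have h1 := (hT₀ S hST₀).1 Φ hΦ k hk0 hk
    have hLS0 : 0 < Real.log S := Real.log_pos (by linarith)
    have hLST : Real.log S ≤ Real.log T := Real.log_le_log hS0 (by linarith)
    have hLS : (1 - δ) * Real.log T ≤ Real.log S := by
      have e1 : Real.log (T / 2 ^ J) ≤ Real.log S := Real.log_le_log (by positivity) hS1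
      rw [Real.log_div hT0.ne' (by positivity), Real.log_pow] at e1
      rw [div_le_iff₀ hδ0] at hlog
      linarith
    set Q := Real.log S ^ (k ^ 2) with hQ
    have hQ0 : 0 < Q := Real.rpow_pos_of_pos hLS0 _
    have hQP : Q ≤ P := Real.rpow_le_rpow hLS0.le hLST (sq_nonneg _)
    have hPQ : (1 - δ) * P ≤ Q := by
      calc (1 - δ) * P ≤ (1 - δ) ^ (k ^ 2) * P := by
            apply mul_le_mul_of_nonneg_right _ hP0.le
            have h2 : (1 - δ) ^ (1:ℝ) ≤ (1 - δ) ^ (k ^ 2) := by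
              apply Real.rpow_le_rpow_of_exponent_ge (by linarith) (by linarith)
              nlinarith
            rwa [Real.rpow_one] at h2
        _ = ((1 - δ) * Real.log T) ^ (k ^ 2) := by rw [Real.mul_rpow (by linarith) hL0.le]
        _ ≤ Q := Real.rpow_le_rpow (by
            have : 0 < 1 - δ := by linarith
            positivity) hLS (sq_nonneg _)
    set I₀ := ∫ t in S..(2 * S), Φ (zv t) with hI₀
    have hI1 : I₀ ≤ S := by
      have h5 : I₀ ≤ ∫ t in S..(2 * S), (1 : ℝ) :=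
        intervalIntegral.integral_mono (by linarith) (hc3.intervalIntegrable _ _) (by simp) (fun t => hΦ.le_one _)
      simp only [intervalIntegral.integral_const, smul_eq_mul, mul_one] at h5
      linarith
    have hI0 : 0 ≤ I₀ := intervalIntegral.integral_nonneg (by linarith) fun t _ => hΦ.nonneg _
    rw [hFint S (2 * S), ← hI₀]
    have b1 : ε / 4 * (S * Q) ≤ ε / 4 * (S * P) := by gcongr
    have b2 : |Q * I₀ - P * I₀| ≤ ε / 4 * (S * P) := by
      have : Q * I₀ - P * I₀ = -((P - Q) * I₀) := by ring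
      rw [this, abs_neg, abs_mul, abs_of_nonneg (by linarith), abs_of_nonneg hI0]
      calc (P - Q) * I₀ ≤ (δ * P) * S := mul_le_mul (by linarith) hI1 hI0 (by positivity)
        _ ≤ (ε / 4 * P) * S := by gcongr
        _ = _ := by ring
    have h4 : (∫ t in S..(2 * S), Φ (zv t) * ‖riemannZeta (cl t)‖ ^ (2 * k)) - P * I₀ =
        ((∫ t in S..(2 * S), Φ (zv t) * ‖riemannZeta (cl t)‖ ^ (2 * k)) - Q * I₀) + (Q * I₀ - P * I₀) := by ring
    rw [h4]
    refine (abs_add_le _ _).trans ?_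
    linarith
  -- the sum
  have hsum : ∀ j : ℕ, j ≤ J → |∫ t in (T / 2 ^ j)..T, F t| ≤ ε / 2 * ((T - T / 2 ^ j) * P) := by
    intro j
    induction j with
    | zero => intro _; simp
    | succ j ih =>
      intro hj
      have h1 := ih (by omega)
      have e1 : 2 * (T / 2 ^ (j + 1)) = T / 2 ^ j := by rw [pow_succ]; field_simp
      have h2 := hblock (T / 2 ^ (j + 1)) (by gcongr; norm_num) (by
        rw [e1]; exact div_le_self hT0.le (one_le_pow₀ (by norm_num)))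
      rw [e1] at h2
      have h3 : ∫ t in (T / 2 ^ (j + 1))..T, F t = (∫ t in (T / 2 ^ (j + 1))..(T / 2 ^ j), F t) + ∫ t in (T / 2 ^ j)..T, F t :=
        (intervalIntegral.integral_add_adjacent_intervals (hFc.intervalIntegrable _ _) (hFc.intervalIntegrable _ _)).symm
      rw [h3]
      refine (abs_add_le _ _).trans ?_
      have e3 : ε / 2 * ((T - T / 2 ^ (j + 1)) * P) = ε / 2 * (T / 2 ^ (j + 1) * P) + ε / 2 * ((T - 2 * (T / 2 ^ (j + 1))) * P) := by
        ring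
      rw [e3, e1]
      linarith
  -- the rest
  set U := T / 2 ^ J with hU
  have hUT₀ : T₀ ≤ U := (le_max_left _ _).trans hJT
  have hU16 : 16 ≤ U := (le_max_right _ _).trans hJT
  have hU0 : 0 < U := by linarith
  have hUT : U ≤ T := by rw [hU]; exact div_le_self hT0.le (one_le_pow₀ (by norm_num))
  have hUε : (M + 1) * U ≤ ε / 4 * T := by
    have e1 : U = (1 / 2) ^ J * T := by rw [hU, one_div, inv_pow]; field_simp
    rw [e1]
    have h2 : (M + 1) * ((1 / 2 : ℝ) ^ J) ≤ ε / 4 := by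
      calc (M + 1) * ((1 / 2 : ℝ) ^ J) ≤ (M + 1) * (ε / (4 * (M + 1))) := by gcongr
        _ = ε / 4 := by field_simp
    calc (M + 1) * ((1 / 2 : ℝ) ^ J * T) = ((M + 1) * (1 / 2 : ℝ) ^ J) * T := by ring
      _ ≤ ε / 4 * T := mul_le_mul_of_nonneg_right h2 hT0.le
  have hrest : |∫ t in (0:ℝ)..U, F t| ≤ ε / 4 * (T * P) := by
    have h1 := (hT₀ U hUT₀).2 k hk0 hk1
    have h2 : Real.log U ^ (k ^ 2) ≤ P := Real.rpow_le_rpow (Real.log_nonneg (by linarith)) (Real.log_le_log hU0 hUT) (sq_nonneg _)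
    have h3 : |∫ t in (0:ℝ)..U, F t| ≤ ∫ t in (0:ℝ)..U, (‖riemannZeta (cl t)‖ ^ (2 * k) + P) := by
      refine (intervalIntegral.abs_integral_le_integral_abs hU0.le).trans ?_
      refine intervalIntegral.integral_mono_on hU0.le (hFc.abs.intervalIntegrable _ _)
        ((hz.add continuous_const).intervalIntegrable _ _) fun t _ => ?_
      simp only [hF]
      have a1 : 0 ≤ ‖riemannZeta (cl t)‖ ^ (2 * k) := Real.rpow_nonneg (norm_nonneg _) _
      have a2 := hΦ.nonneg (zv t)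
      have a3 := hΦ.le_one (zv t)
      have a4 : Φ (zv t) * ‖riemannZeta (cl t)‖ ^ (2 * k) ≤ ‖riemannZeta (cl t)‖ ^ (2 * k) := mul_le_of_le_one_left a1 a3
      have a5 : P * Φ (zv t) ≤ P := mul_le_of_le_one_right hP0.le a3
      have a6 : 0 ≤ Φ (zv t) * ‖riemannZeta (cl t)‖ ^ (2 * k) := mul_nonneg a2 a1
      have a7 : 0 ≤ P * Φ (zv t) := mul_nonneg hP0.le a2
      rw [abs_le]
      constructor <;> linarith
    rw [intervalIntegral.integral_add (hz.intervalIntegrable _ _) (by simp), intervalIntegral.integral_const, smul_eq_mul, sub_zero] at h3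
    have h4 : M * (U * Real.log U ^ (k ^ 2)) ≤ M * (U * P) := by gcongr
    calc |∫ t in (0:ℝ)..U, F t| ≤ M * (U * P) + U * P := by linarith
      _ = ((M + 1) * U) * P := by ring
      _ ≤ (ε / 4 * T) * P := mul_le_mul_of_nonneg_right hUε hP0.le
      _ = _ := by ring
  have e4 := (hFint 0 T).symm
  have e5 : ∫ t in (0:ℝ)..T, F t = (∫ t in (0:ℝ)..U, F t) + ∫ t in U..T, F t :=
    (intervalIntegral.integral_add_adjacent_intervals (hFc.intervalIntegrable _ _) (hFc.intervalIntegrable _ _)).symm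
  rw [e4, e5]
  refine (abs_add_le _ _).trans ?_
  have h6 := hsum J le_rfl
  have h7 : ε / 2 * ((T - U) * P) ≤ ε / 2 * (T * P) := by
    gcongr
    linarith
  have h8 : 0 ≤ ε * (T * P) := by positivity
  have h9 : |∫ t in U..T, F t| ≤ ε / 2 * (T * P) := h6.trans h7
  linarith

end

end Pool.Agent.H510.SM
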