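import Pool.Agent.H510.SM.Tf

/-!
The moments of small order in the classes.
-/

set_option autoImplicit false

open Filter Topology MeasureTheory Finset
open Pool.Agent.Q276.CD Pool.Agent.Q276.KZ

namespace Pool.Agent.H510.SM

open Pool.Agent.H510.UZ Pool.Agent.H510.PC Pool.Agent.H510.EX

noncomputable section

theorem near_open {K : Set ℂ} (hK : IsCompact K) (hK1 : ∀ z ∈ K, z.re < 1) (A : Set (ℂ → ℂ)) (x : ℝ) :
    IsOpen {t : ℝ | Near K A x t} := by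
  have h : {t : ℝ | Near K A x t} = ⋃ κ : {κ : ℝ // 0 < κ}, {t : ℝ | 0 < PhiA K κ.2 A (x - κ.1) (zv t)} := by
    ext t
    simp only [Set.mem_ofPred_eq, Set.mem_iUnion]
    constructor
    · rintro ⟨f, hf, r, hr, h1⟩
      refine ⟨⟨(x - r) / 2, by linarith⟩, ?_⟩
      rw [PhiA_one]
      · exact one_pos
      · exact ⟨f, hf, r, by simp only; linarith, h1⟩
    · rintro ⟨κ, hκ⟩
      by_contra hcon
      have h2 : ¬ Near K A (x - κ.1 + κ.1) t := by rwa [sub_add_cancel]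
      rw [PhiA_zero κ.2 h2] at hκ
      exact lt_irrefl _ hκ
  rw [h]
  refine isOpen_iUnion fun κ => ?_
  exact isOpen_lt continuous_const (val_cont hK hK1 (inv_nonneg.2 κ.2.le) (PhiA_fun K κ.2 A (x - κ.1)))

theorem sandwich {K : Set ℂ} (hK : IsCompact K) (hK1 : ∀ z ∈ K, z.re < 1) {κ : ℝ} (hκ : 0 < κ) (A : Set (ℂ → ℂ)) (η : ℝ) {a b : ℝ}
    (hab : a ≤ b) (g : ℝ → ℝ) (hg : Continuous g) (hg0 : ∀ t, 0 ≤ g t) :
    ∫ t in a..b, PhiA K hκ A (η - κ) (zv t) * g t ≤ ∫ t in {t : ℝ | t ∈ Set.Ioc a b ∧ Near K A η t}, g t ∧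
    ∫ t in {t : ℝ | t ∈ Set.Ioc a b ∧ Near K A η t}, g t ≤ ∫ t in a..b, PhiA K hκ A η (zv t) * g t := by
  have hS : MeasurableSet {t : ℝ | Near K A η t} := (near_open hK hK1 A η).measurableSet
  have e1 : {t : ℝ | t ∈ Set.Ioc a b ∧ Near K A η t} = Set.Ioc a b ∩ {t : ℝ | Near K A η t} := rfl
  rw [e1, ← setIntegral_indicator hS, intervalIntegral.integral_of_le hab, intervalIntegral.integral_of_le hab]
  have c1 := val_cont hK hK1 (inv_nonneg.2 hκ.le) (PhiA_fun K hκ A (η - κ))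
  have c2 := val_cont hK hK1 (inv_nonneg.2 hκ.le) (PhiA_fun K hκ A η)
  have i0 : IntegrableOn (Set.indicator {t : ℝ | Near K A η t} g) (Set.Ioc a b) :=
    Integrable.indicator ((hg.integrableOn_Icc (a := a) (b := b)).mono_set Set.Ioc_subset_Icc_self) hS
  have i1 : IntegrableOn (fun t => PhiA K hκ A (η - κ) (zv t) * g t) (Set.Ioc a b) :=
    ((c1.mul hg).integrableOn_Icc (a := a) (b := b)).mono_set Set.Ioc_subset_Icc_self
  have i2 : IntegrableOn (fun t => PhiA K hκ A η (zv t) * g t) (Set.Ioc a b) :=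
    ((c2.mul hg).integrableOn_Icc (a := a) (b := b)).mono_set Set.Ioc_subset_Icc_self
  constructor
  · refine setIntegral_mono_on i1 i0 measurableSet_Ioc fun t _ => ?_
    by_cases h : Near K A η t
    · rw [Set.indicator_of_mem (show t ∈ {t : ℝ | Near K A η t} from h)]
      exact mul_le_of_le_one_left (hg0 t) ((PhiA_fun K hκ A (η - κ)).le_one _)
    · rw [Set.indicator_of_notMem (show t ∉ {t : ℝ | Near K A η t} from h), PhiA_zero hκ (by rwa [sub_add_cancel]), zero_mul]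
  · refine setIntegral_mono_on i0 i2 measurableSet_Ioc fun t _ => ?_
    by_cases h : Near K A η t
    · rw [Set.indicator_of_mem (show t ∈ {t : ℝ | Near K A η t} from h), PhiA_one hκ h, one_mul]
    · rw [Set.indicator_of_notMem (show t ∉ {t : ℝ | Near K A η t} from h)]
      exact mul_nonneg ((PhiA_fun K hκ A η).nonneg _) (hg0 t)

/-- the moment over the heights with a property -/
def Mo (β a b : ℝ) (P : ℝ → Prop) : ℝ := ∫ t in {t : ℝ | t ∈ Set.Ioc a b ∧ P t}, ‖riemannZeta (1 / 2 + t * Complex.I)‖ ^ β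

theorem Ms_int (a b : ℝ) (P : ℝ → Prop) : Ms a b P = ∫ t in {t : ℝ | t ∈ Set.Ioc a b ∧ P t}, (fun _ => (1:ℝ)) t := by
  simp [Ms, Measure.real]

theorem heights {K : Set ℂ} (hK : IsCompact K) (hK1 : ∀ z ∈ K, z.re < 1) {κ : ℝ} (hκ : 0 < κ) (A : Set (ℂ → ℂ)) (η : ℝ) {a b : ℝ}
    (hab : a ≤ b) : ∫ t in a..b, PhiA K hκ A (η - κ) (zv t) ≤ Ms a b (Near K A η) ∧
    Ms a b (Near K A η) ≤ ∫ t in a..b, PhiA K hκ A η (zv t) := by
  have h := sandwich hK hK1 hκ A η hab (fun _ => (1:ℝ)) continuous_const (fun _ => zero_le_one)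
  simp only [mul_one] at h
  rw [Ms_int]
  exact h

theorem cls_small (K : Set ℂ) (hK : IsCompact K) (hKs : ∀ z ∈ K, 1 / 2 < z.re ∧ z.re < 1) (κ : ℝ) (hκ : 0 < κ) (ε : ℝ) (hε : 0 < ε) :
    ∃ β₀ : ℝ, 0 < β₀ ∧ ∀ᶠ T : ℝ in atTop, ∀ a b : ℝ, (a = T ∧ b = 2 * T ∨ a = 0 ∧ b = T) → ∀ (A : Set (ℂ → ℂ)) (η β : ℝ),
      0 < β → β ≤ β₀ →
      Real.log T ^ (β ^ 2 / 4) * (Ms a b (Near K A η) - ε * T) ≤ Mo β a b (Near K A (η + κ)) ∧
      Mo β a b (Near K A η) ≤ Real.log T ^ (β ^ 2 / 4) * (Ms a b (Near K A (η + κ)) + ε * T) := by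
  have hK1 : ∀ z ∈ K, z.re < 1 := fun z hz => (hKs z hz).2
  have hκ2 : 0 < κ / 2 := half_pos hκ
  have hD : 0 ≤ (κ / 2)⁻¹ := inv_nonneg.2 hκ2.le
  obtain ⟨k₁, hk₁, hk₁1, h1⟩ := mom_all K hK hKs _ hD ε hε
  obtain ⟨k₂, hk₂, hk₂1, h2⟩ := mom_glob K hK hKs _ hD ε hε
  refine ⟨2 * min k₁ k₂, by positivity, ?_⟩
  filter_upwards [h1, h2, eventually_ge_atTop (Real.exp 1)] with T h1 h2 hTe a b hab A η β hβ0 hβ
  have hT0 : 0 < T := lt_of_lt_of_le (Real.exp_pos _) hTe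
  have hL1 : 1 ≤ Real.log T := by
    rw [Real.le_log_iff_exp_le hT0]; exact hTe
  have hL0 : 0 < Real.log T := by linarith
  have e1 : β ^ 2 / 4 = (β / 2) ^ 2 := by ring
  have e2 : 2 * (β / 2) = β := by ring
  rw [e1]
  set P := Real.log T ^ ((β / 2) ^ 2) with hP
  have hP0 : 0 < P := Real.rpow_pos_of_pos hL0 _
  have hk0 : 0 < β / 2 := by linarith
  have hkm : β / 2 ≤ min k₁ k₂ := by linarith
  have hab' : a ≤ b := by
    rcases hab with ⟨ha, hb⟩ | ⟨ha, hb⟩ <;> rw [ha, hb] <;> linarith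
  -- the transfer
  have key : ∀ Φ : (ℂ → ℂ) → ℝ, Fun K (κ / 2)⁻¹ Φ →
      |(∫ t in a..b, Φ (zv t) * ‖riemannZeta (1 / 2 + t * Complex.I)‖ ^ β) - P * ∫ t in a..b, Φ (zv t)| ≤ ε * (T * P) := by
    intro Φ hΦ
    have g1 := h1 Φ hΦ (β / 2) hk0 (hkm.trans (min_le_left _ _))
    have g2 := h2 Φ hΦ (β / 2) hk0 (hkm.trans (min_le_right _ _))
    rw [e2] at g1 g2
    rcases hab with ⟨ha, hb⟩ | ⟨ha, hb⟩
    · rw [ha, hb]; exact g1
    · rw [ha, hb]; exact g2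
  have hg : Continuous fun t : ℝ => ‖riemannZeta (1 / 2 + t * Complex.I)‖ ^ β :=
    zeta_cl_cont.norm.rpow_const fun _ => Or.inr hβ0.le
  have hg0 : ∀ t : ℝ, 0 ≤ ‖riemannZeta (1 / 2 + t * Complex.I)‖ ^ β := fun t => Real.rpow_nonneg (norm_nonneg _) _
  constructor
  · have s1 := (sandwich hK hK1 hκ2 A (η + κ) hab' _ hg hg0).1
    have s2 := (heights hK hK1 hκ2 A η hab').2
    have s3 : Ms a b (Near K A η) ≤ ∫ t in a..b, PhiA K hκ2 A (η + κ - κ / 2) (zv t) := by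
      refine (heights hK hK1 hκ2 A (η + κ - κ / 2) hab').2 |> le_trans ?_
      apply Ms_mono_set le_rfl le_rfl
      rintro t ⟨f, hf, r, hr, h3⟩
      exact ⟨f, hf, r, by linarith, h3⟩
    have s4 := (abs_le.1 (key _ (PhiA_fun K hκ2 A (η + κ - κ / 2)))).1
    have s5 : P * Ms a b (Near K A η) ≤ P * ∫ t in a..b, PhiA K hκ2 A (η + κ - κ / 2) (zv t) := by gcongr
    unfold Mo
    linarith
  · have s1 := (sandwich hK hK1 hκ2 A η hab' _ hg hg0).2
    have s3 : ∫ t in a..b, PhiA K hκ2 A η (zv t) ≤ Ms a b (Near K A (η + κ)) := by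
      have s4 := (heights hK hK1 hκ2 A (η + κ / 2) hab').1
      have e3 : η + κ / 2 - κ / 2 = η := by ring
      rw [e3] at s4
      refine s4.trans ?_
      apply Ms_mono_set le_rfl le_rfl
      rintro t ⟨f, hf, r, hr, h3⟩
      exact ⟨f, hf, r, by linarith, h3⟩
    have s4 := (abs_le.1 (key _ (PhiA_fun K hκ2 A η))).2
    have s5 : P * (∫ t in a..b, PhiA K hκ2 A η (zv t)) ≤ P * Ms a b (Near K A (η + κ)) := by gcongr
    unfold Mo
    linarith

/-- the approximation by squares of short Dirichlet polynomials -/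
theorem approx (B : ℕ) (θ : ℝ) (hθ : 0 < θ) (ε : ℝ) (hε : 0 < ε) : ∃ β₀ : ℝ, 0 < β₀ ∧ ∀ᶠ T : ℝ in atTop, ∀ β : ℝ, 0 < β → β ≤ β₀ →
    ∃ a : ℕ → ℝ, (∀ n, 0 ≤ a n) ∧ (∀ n, a n ≠ 0 → 1 ≤ n ∧ ∀ p : ℕ, p.Prime → p ∣ n → B < p) ∧ (∀ d n : ℕ, d ∣ n → n ≠ 0 → a n ≤ a d) ∧
      ∫ t in T..(2 * T), |‖riemannZeta (1 / 2 + t * Complex.I)‖ ^ β -
        ‖∑ n ∈ Icc 1 ⌊T ^ θ⌋₊, (a n : ℂ) * (n : ℂ) ^ (-(1 / 2 + t * Complex.I))‖ ^ 2| ≤ ε * (T * Real.log T ^ (β ^ 2 / 4)) := by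
  obtain ⟨e0, he0, hclose⟩ := close
  obtain ⟨e, he⟩ : ∃ e : ℝ, e = min (min e0 θ) (1 / 80) := ⟨_, rfl⟩
  have hee : 0 < e := by rw [he]; positivity
  have hee0 : e ≤ e0 := by rw [he]; exact (min_le_left _ _).trans (min_le_left _ _)
  have heeθ : e ≤ θ := by rw [he]; exact (min_le_left _ _).trans (min_le_right _ _)
  have hee1 : e ≤ 1 / 80 := by rw [he]; exact min_le_right _ _
  obtain ⟨C3, C, hC, hcl⟩ := hclose e hee hee0
  have hlim : Tendsto (fun k : ℝ => k * Real.log (2 / k)) (𝓝[>] 0) (𝓝 0) := by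
    have h1 : Tendsto (fun k : ℝ => k * Real.log k) (𝓝[>] 0) (𝓝 0) := by
      have h3 := tendsto_log_mul_rpow_nhdsGT_zero (r := 1) one_pos
      refine h3.congr fun k => ?_
      rw [Real.rpow_one, mul_comm]
    have h2 : Tendsto (fun k : ℝ => k * Real.log 2) (𝓝[>] 0) (𝓝 0) := by
      have : Tendsto (fun k : ℝ => k * Real.log 2) (𝓝 0) (𝓝 (0 * Real.log 2)) := tendsto_id.mul_const _
      rw [zero_mul] at this
      exact this.mono_left nhdsWithin_le_nhds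
    have h3 := h2.sub h1
    rw [sub_zero] at h3
    refine h3.congr' ?_
    filter_upwards [self_mem_nhdsWithin] with k hk
    have hk0 : (0:ℝ) < k := hk
    rw [Real.log_div (by norm_num) hk0.ne']
    ring
  obtain ⟨k₁, hk₁, hk₁'⟩ : ∃ k₁ : ℝ, 0 < k₁ ∧ ∀ k : ℝ, 0 < k → k ≤ k₁ → C * (k * Real.log (2 / k)) ≤ ε := by
    have h1 : ∀ᶠ k : ℝ in 𝓝[>] 0, k * Real.log (2 / k) ≤ ε / C := by
      have : 0 < ε / C := by positivity
      exact hlim.eventually_le_const this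
    obtain ⟨u, hu, hu'⟩ := mem_nhdsGT_iff_exists_Ioc_subset.1 h1
    refine ⟨u, hu, fun k hk0 hk => ?_⟩
    have h2 := hu' ⟨hk0, hk⟩
    simp only [Set.mem_ofPred_eq] at h2
    rw [le_div_iff₀ hC] at h2
    linarith
  obtain ⟨k₂, hk₂, hk₂'⟩ : ∃ k₂ : ℝ, 0 < k₂ ∧ ∀ k : ℝ, 0 < k → k ≤ k₂ → (B : ℝ) + 1 ≤ 1 / k ^ 2 := by
    refine ⟨1 / (B + 1), by positivity, fun k hk0 hk => ?_⟩
    have h1 : (1:ℝ) ≤ B + 1 := by
      have : (0:ℝ) ≤ B := Nat.cast_nonneg _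
      linarith
    rw [le_div_iff₀ (by positivity)]
    have h2 : k * (B + 1) ≤ 1 := by
      rw [le_div_iff₀ (by positivity)] at hk
      exact hk
    have h3 : k ≤ 1 := by nlinarith
    nlinarith
  refine ⟨2 * min (min k₁ k₂) 1, by positivity, ?_⟩
  filter_upwards [hcl, pow_le_y2 (e := e) (by linarith), tiny ε hε, eventually_gt_atTop (3:ℝ)] with T hcl hy htiny hT3 β hβ0 hβ
  obtain ⟨k, hk⟩ : ∃ k : ℝ, k = β / 2 := ⟨_, rfl⟩
  have e1 : β ^ 2 / 4 = k ^ 2 := by rw [hk]; ring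
  have e2 : β = 2 * k := by rw [hk]; ring
  rw [e1]
  have hk0 : 0 < k := by rw [hk]; linarith
  have hkm : k ≤ min (min k₁ k₂) 1 := by rw [hk]; linarith
  have hkk1 : k ≤ k₁ := hkm.trans ((min_le_left _ _).trans (min_le_left _ _))
  have hkk2 : k ≤ k₂ := hkm.trans ((min_le_left _ _).trans (min_le_right _ _))
  have hkk3 : k ≤ 1 := hkm.trans (min_le_right _ _)
  have hT0 : 0 < T := by linarith
  have hT1 : 1 ≤ T := by linarith
  have hL0 : 0 < Real.log T := Real.log_pos (by linarith)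
  have hL1 : 1 ≤ Real.log T := by
    rw [Real.le_log_iff_exp_le hT0]
    have := Real.exp_one_lt_d9
    linarith
  have hLk : 1 ≤ Real.log T ^ (k ^ 2) := Real.one_le_rpow hL1 (sq_nonneg _)
  have hN1 : 1 ≤ ⌊T ^ θ⌋₊ := by
    apply Nat.le_floor
    rw [Nat.cast_one]
    exact Real.one_le_rpow hT1 hθ.le
  rcases le_total (Real.log T ^ (-(1 / 5) : ℝ)) k with hc | hc
  · obtain ⟨J, Kk, b, hS, hd1, _⟩ := hcl k hc hkk3
    have hB : B < b 0 := by
      have h1 := hk₂' k hk0 hkk2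
      have h2 := hS.b0l
      have h3 : (B : ℝ) + 1 ≤ b 0 := h1.trans h2
      have h4 : B + 1 ≤ b 0 := by exact_mod_cast h3
      omega
    have hDD := fQ_DD hS hy hB
    refine ⟨fun n => fQ b J (QE k Kk) n, hDD.nn, fun n hn => ⟨(hDD.supp n hn).1, hDD.low n hn⟩, hDD.mono, ?_⟩
    have h1 : ∀ t : ℝ, ∑ n ∈ Icc 1 ⌊T ^ θ⌋₊, ((fQ b J (QE k Kk) n : ℝ) : ℂ) * (n : ℂ) ^ (-(1 / 2 + t * Complex.I)) =
        Dr (fQ b J (QE k Kk)) (y2 T) (cl t) := by
      intro t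
      rw [← dp_eq hS hy hT1 t]
      unfold Pool.Agent.Q97.UM.dp
      symm
      refine Finset.sum_subset (Finset.Icc_subset_Icc_right ?_) ?_
      · exact Nat.floor_le_floor (Real.rpow_le_rpow_of_exponent_le hT1 heeθ)
      · intro n _ hn
        have h1 : fQ b J (QE k Kk) n = 0 := by
          by_contra hcon
          exact hn (Finset.mem_Icc.2 (hDD.supp n hcon))
        simp [h1]
    simp only [h1]
    rw [e2]
    exact hd1.trans (mul_le_mul_of_nonneg_right (hk₁' k hk0 hkk1) (by positivity))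
  · refine ⟨fun n => if n = 1 then 1 else 0, fun n => by beta_reduce; split_ifs <;> norm_num, ?_, ?_, ?_⟩
    · intro n hn
      have h1 : n = 1 := by
        by_contra h
        simp [h] at hn
      refine ⟨h1.ge, fun p hp hpn => ?_⟩
      rw [h1, Nat.dvd_one] at hpn
      exact absurd (hpn ▸ hp) Nat.not_prime_one
    · intro d n hdn hn
      by_cases h1 : n = 1
      · have h2 : d = 1 := by rw [h1] at hdn; exact Nat.dvd_one.1 hdn
        simp [h1, h2]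
      · simp only [h1, if_false]
        split_ifs <;> norm_num
    · have h1 : ∀ t : ℝ, ∑ n ∈ Icc 1 ⌊T ^ θ⌋₊, (((if n = 1 then (1:ℝ) else 0 : ℝ)) : ℂ) * (n : ℂ) ^ (-(1 / 2 + t * Complex.I)) = 1 := by
        intro t
        rw [Finset.sum_eq_single 1]
        · simp
        · intro n _ hn
          simp [hn]
        · intro h
          exact absurd (Finset.mem_Icc.2 ⟨le_rfl, hN1⟩) h
      simp only [h1, norm_one, one_pow]
      rw [e2]
      refine (htiny k hk0 hc).trans ?_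
      apply mul_le_mul_of_nonneg_left _ hε.le
      exact le_mul_of_one_le_right hT0.le hLk

end

end Pool.Agent.H510.SM
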